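import Mathlib

open MeasureTheory Set Filter Topology

namespace H71CMC

/-- the Euclidean plane -/
abbrev E2 := EuclideanSpace ℝ (Fin 2)
/-- Euclidean three-space -/
abbrev E3 := EuclideanSpace ℝ (Fin 3)

noncomputable def prodEquiv : E2 ≃L[ℝ] ℝ × ℝ :=
  (EuclideanSpace.equiv (Fin 2) ℝ).trans (ContinuousLinearEquiv.finTwoArrow ℝ ℝ)

lemma prodEquiv_apply (x : E2) : prodEquiv x = (x 0, x 1) := rfl

lemma prodEquiv_mp : MeasurePreserving prodEquiv volume volume :=
  (volume_preserving_finTwoArrow ℝ).comp (PiLp.volume_preserving_ofLp (Fin 2))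

theorem halfplane_stokes_prod (f g : ℝ × ℝ → ℝ) (f' g' : ℝ × ℝ → ℝ × ℝ →L[ℝ] ℝ) (R : ℝ)
    (hR : 0 < R)
    (hf : ContinuousOn f {x | 0 ≤ x.1}) (hg : ContinuousOn g {x | 0 ≤ x.1})
    (hf0 : ∀ x : ℝ × ℝ, 0 ≤ x.1 → (R ≤ x.1 ∨ R ≤ |x.2|) → f x = 0)
    (hg0 : ∀ x : ℝ × ℝ, 0 ≤ x.1 → (R ≤ x.1 ∨ R ≤ |x.2|) → g x = 0)
    (hdf : ∀ x : ℝ × ℝ, 0 < x.1 → HasFDerivAt f (f' x) x)
    (hdg : ∀ x : ℝ × ℝ, 0 < x.1 → HasFDerivAt g (g' x) x)
    (hi : IntegrableOn (fun x => f' x (1, 0) + g' x (0, 1)) {x : ℝ × ℝ | 0 ≤ x.1}) :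
    ∫ x in {x : ℝ × ℝ | 0 ≤ x.1}, (f' x (1, 0) + g' x (0, 1)) = - ∫ y, f (0, y) := by
  have hsub : Icc ((0 : ℝ), -R) (R, R) ⊆ {x : ℝ × ℝ | 0 ≤ x.1} := fun x hx => hx.1.1
  have hle : ((0 : ℝ), -R) ≤ (R, R) := ⟨hR.le, by simp; linarith⟩
  have h1 : ∫ x in {x : ℝ × ℝ | 0 ≤ x.1}, (f' x (1, 0) + g' x (0, 1)) =
      ∫ x in Icc ((0 : ℝ), -R) (R, R), (f' x (1, 0) + g' x (0, 1)) := by
    apply setIntegral_eq_of_subset_of_ae_sdiff_eq_zero _ hsub
    · have hz : ∀ᵐ x : ℝ × ℝ, x.1 ≠ 0 := by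
        have : (volume : Measure (ℝ × ℝ)) {x | x.1 = 0} = 0 := by
          have : {x : ℝ × ℝ | x.1 = 0} = ({0} : Set ℝ) ×ˢ (univ : Set ℝ) := by
            ext x; simp
          rw [this, Measure.volume_eq_prod, Measure.prod_prod]
          simp
        rw [ae_iff]
        simpa using this
      filter_upwards [hz] with x hx0 hx
      have hx1 : 0 < x.1 := lt_of_le_of_ne hx.1 (Ne.symm hx0)
      have hx2 : R < x.1 ∨ R < |x.2| := by
        by_contra hcon
        push Not at hcon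
        apply hx.2
        have := abs_le.1 hcon.2
        exact ⟨⟨hx1.le, this.1⟩, ⟨hcon.1, this.2⟩⟩
      have hopen : IsOpen {z : ℝ × ℝ | 0 < z.1 ∧ (R < z.1 ∨ R < |z.2|)} := by
        apply (isOpen_lt continuous_const continuous_fst).inter
        exact (isOpen_lt continuous_const continuous_fst).union
          (isOpen_lt continuous_const continuous_snd.abs)
      have hmem : {z : ℝ × ℝ | 0 < z.1 ∧ (R < z.1 ∨ R < |z.2|)} ∈ 𝓝 x :=
        hopen.mem_nhds ⟨hx1, hx2⟩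
      have hfz : f =ᶠ[𝓝 x] fun _ => 0 := by
        filter_upwards [hmem] with z hz
        exact hf0 z hz.1.le (hz.2.imp le_of_lt le_of_lt)
      have hgz : g =ᶠ[𝓝 x] fun _ => 0 := by
        filter_upwards [hmem] with z hz
        exact hg0 z hz.1.le (hz.2.imp le_of_lt le_of_lt)
      have e1 : f' x = 0 := (hdf x hx1).unique ((hasFDerivAt_const (0 : ℝ) x).congr_of_eventuallyEq hfz)
      have e2 : g' x = 0 := (hdg x hx1).unique ((hasFDerivAt_const (0 : ℝ) x).congr_of_eventuallyEq hgz)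
      simp [e1, e2]
    · exact (measurableSet_le measurable_const measurable_fst).nullMeasurableSet
  rw [h1, integral_divergence_prod_Icc_of_hasFDerivAt_of_le f g f' g' _ _ hle
    (hf.mono hsub) (hg.mono hsub) (fun x hx => hdf x hx.1.1) (fun x hx => hdg x hx.1.1)
    (hi.mono_set hsub)]
  have a1 : ∫ x in (0:ℝ)..R, g (x, R) = 0 := by
    apply intervalIntegral.integral_zero_ae
    filter_upwards with x hx
    rw [uIoc_of_le hR.le] at hx
    exact hg0 _ hx.1.le (Or.inr (le_abs_self R))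
  have a2 : ∫ x in (0:ℝ)..R, g (x, -R) = 0 := by
    apply intervalIntegral.integral_zero_ae
    filter_upwards with x hx
    rw [uIoc_of_le hR.le] at hx
    exact hg0 _ hx.1.le (Or.inr (by simp [abs_of_pos hR]))
  have a3 : ∫ y in (-R)..R, f (R, y) = 0 := by
    apply intervalIntegral.integral_zero_ae
    filter_upwards with y hy
    exact hf0 _ hR.le (Or.inl le_rfl)
  have a4 : ∫ y in (-R)..R, f (0, y) = ∫ y, f (0, y) := by
    rw [intervalIntegral.integral_of_le (by linarith)]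
    apply setIntegral_eq_integral_of_forall_compl_eq_zero
    intro y hy
    apply hf0 _ le_rfl (Or.inr _)
    by_contra hcon
    push Not at hcon
    have := abs_lt.1 hcon
    exact hy ⟨this.1, this.2.le⟩
  simp only [a1, a2, a3, a4]
  ring

/-- `!₂[s,t]` as an element of the plane -/
noncomputable abbrev pt (s t : ℝ) : E2 := !₂[s, t]

lemma prodEquiv_symm_apply (s t : ℝ) : prodEquiv.symm (s, t) = pt s t := by
  apply prodEquiv.injective
  simp [prodEquiv_apply]

/-- the closed half-plane -/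
def HP : Set E2 := {x | 0 ≤ x 0}

/-- first basis vector -/
noncomputable abbrev b0 : E2 := !₂[1, 0]
/-- second basis vector -/
noncomputable abbrev b1 : E2 := !₂[0, 1]

theorem halfplane_stokes (f g : E2 → ℝ) (f' g' : E2 → E2 →L[ℝ] ℝ)
    (K : Set E2) (hK : IsCompact K)
    (hf : ContinuousOn f HP) (hg : ContinuousOn g HP)
    (hf0 : ∀ x ∈ HP, x ∉ K → f x = 0)
    (hg0 : ∀ x ∈ HP, x ∉ K → g x = 0)
    (hdf : ∀ x : E2, 0 < x 0 → HasFDerivAt f (f' x) x)
    (hdg : ∀ x : E2, 0 < x 0 → HasFDerivAt g (g' x) x)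
    (hi : IntegrableOn (fun x => f' x b0 + g' x b1) HP) :
    ∫ x in HP, (f' x b0 + g' x b1) = - ∫ t, f (pt 0 t) := by
  obtain ⟨R, hR, hKR⟩ : ∃ R : ℝ, 0 < R ∧ ∀ x ∈ K, ‖x‖ < R := by
    obtain ⟨R, hR⟩ := hK.isBounded.exists_norm_le
    exact ⟨max R 0 + 1, by positivity, fun x hx => lt_of_le_of_lt ((hR x hx).trans (le_max_left _ _))
      (by linarith [le_max_left R 0])⟩
  have hmp := prodEquiv_mp
  have hemb : MeasurableEmbedding prodEquiv := prodEquiv.toHomeomorph.measurableEmbedding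
  have hpre : prodEquiv ⁻¹' {z : ℝ × ℝ | 0 ≤ z.1} = HP := rfl
  have hbasis0 : prodEquiv.symm ((1 : ℝ), (0 : ℝ)) = b0 := prodEquiv_symm_apply 1 0
  have hbasis1 : prodEquiv.symm ((0 : ℝ), (1 : ℝ)) = b1 := prodEquiv_symm_apply 0 1
  have hmaps : MapsTo prodEquiv.symm {z : ℝ × ℝ | 0 ≤ z.1} HP := by
    intro z hz
    change 0 ≤ (prodEquiv (prodEquiv.symm z)).1
    rw [ContinuousLinearEquiv.apply_symm_apply]
    exact hz
  have hout : ∀ z : ℝ × ℝ, 0 ≤ z.1 → (R ≤ z.1 ∨ R ≤ |z.2|) → prodEquiv.symm z ∉ K := by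
    intro z hz hzR hzK
    have h1 := hKR _ hzK
    have h2 : ∀ i, |(prodEquiv.symm z) i| ≤ ‖prodEquiv.symm z‖ := fun i => by
      simpa using PiLp.norm_apply_le (prodEquiv.symm z) i
    have e : (prodEquiv (prodEquiv.symm z)) = z := ContinuousLinearEquiv.apply_symm_apply _ _
    rw [prodEquiv_apply] at e
    have e0 : (prodEquiv.symm z) 0 = z.1 := congrArg Prod.fst e
    have e1 : (prodEquiv.symm z) 1 = z.2 := congrArg Prod.snd e
    rcases hzR with h | h
    · have := h2 0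
      rw [e0] at this
      linarith [le_abs_self z.1]
    · have := h2 1
      rw [e1] at this
      linarith
  have e1 : ∫ x in HP, (f' x b0 + g' x b1) =
      ∫ z in {z : ℝ × ℝ | 0 ≤ z.1}, (((f' (prodEquiv.symm z)).comp
        (prodEquiv.symm : ℝ × ℝ →L[ℝ] E2)) (1, 0) +
        ((g' (prodEquiv.symm z)).comp (prodEquiv.symm : ℝ × ℝ →L[ℝ] E2)) (0, 1)) := by
    rw [← hmp.setIntegral_preimage_emb hemb, hpre]
    simp only [ContinuousLinearMap.comp_apply, ContinuousLinearEquiv.coe_coe,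
      ContinuousLinearEquiv.symm_apply_apply, hbasis0, hbasis1]
  have hpos : ∀ z : ℝ × ℝ, (prodEquiv.symm z) 0 = z.1 := by
    intro z
    have e : (prodEquiv (prodEquiv.symm z)) = z := ContinuousLinearEquiv.apply_symm_apply _ _
    rw [prodEquiv_apply] at e
    exact congrArg Prod.fst e
  have key := halfplane_stokes_prod (fun z => f (prodEquiv.symm z)) (fun z => g (prodEquiv.symm z))
    (fun z => (f' (prodEquiv.symm z)).comp (prodEquiv.symm : ℝ × ℝ →L[ℝ] E2))
    (fun z => (g' (prodEquiv.symm z)).comp (prodEquiv.symm : ℝ × ℝ →L[ℝ] E2)) R hR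
    (hf.comp prodEquiv.symm.continuous.continuousOn hmaps)
    (hg.comp prodEquiv.symm.continuous.continuousOn hmaps)
    (fun z hz hzR => hf0 _ (hmaps hz) (hout z hz hzR))
    (fun z hz hzR => hg0 _ (hmaps hz) (hout z hz hzR))
    (fun z hz => (hdf _ (by rw [hpos]; exact hz)).comp z prodEquiv.symm.hasFDerivAt)
    (fun z hz => (hdg _ (by rw [hpos]; exact hz)).comp z prodEquiv.symm.hasFDerivAt)
    (by
      rw [← hmp.integrableOn_comp_preimage hemb, hpre]
      simpa [Function.comp_def, hbasis0, hbasis1] using hi)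
  rw [e1, key]
  simp [prodEquiv_symm_apply]

end H71CMC
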