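import Mathlib
import Pool.Agent.H71.CMC.HalfPlane

open Set Filter Topology

namespace H71CMC

/-- regular `C¹` simple closed curve with period `P` -/
structure SCurve {V : Type*} [NormedAddCommGroup V] [NormedSpace ℝ V] (c : ℝ → V) (P : ℝ) :
    Prop where
  pos : 0 < P
  smooth : ContDiff ℝ 1 c
  period : ∀ t, c (t + P) = c t
  inj : ∀ s t, c s = c t → ∃ n : ℤ, s = t + n * P
  reg : ∀ t, deriv c t ≠ 0

variable {V : Type*} [NormedAddCommGroup V] [InnerProductSpace ℝ V] {c : ℝ → V} {P : ℝ}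

lemma SCurve.exists_Ico (hc : SCurve c P) (s t : ℝ) : ∃ θ ∈ Ico s (s + P), c θ = c t := by
  have hp : Function.Periodic c P := hc.period
  obtain ⟨y, hy, hy2⟩ := hp.exists_mem_Ico hc.pos t s
  exact ⟨y, hy, hy2.symm⟩

open Classical in
/-- inverse of the parametrization, with values in `[s, s + P)` -/
noncomputable def lift (c : ℝ → V) (P s : ℝ) (v : V) : ℝ :=
  if h : ∃ θ ∈ Ico s (s + P), c θ = v then h.choose else s

lemma SCurve.lift_mem (hc : SCurve c P) {s : ℝ} {v : V} (hv : v ∈ range c) :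
    lift c P s v ∈ Ico s (s + P) ∧ c (lift c P s v) = v := by
  obtain ⟨t, rfl⟩ := hv
  have h : ∃ θ ∈ Ico s (s + P), c θ = c t := hc.exists_Ico s t
  rw [lift, dif_pos h]
  exact h.choose_spec

lemma SCurve.eq_of_close (hc : SCurve c P) {s t : ℝ} (h : c s = c t) (h1 : |s - t| < P) :
    s = t := by
  obtain ⟨n, hn⟩ := hc.inj s t h
  have h2 : s - t = n * P := by rw [hn]; ring
  rw [h2, abs_mul, abs_of_pos hc.pos] at h1
  have h3 : |(n : ℝ)| < 1 := by
    by_contra hcon
    push Not at hcon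
    nlinarith [hc.pos]
  have h4 : n = 0 := by
    have : |n| < 1 := by exact_mod_cast h3
    exact Int.abs_lt_one_iff.1 this
  rw [hn, h4]; simp

lemma SCurve.lift_apply (hc : SCurve c P) {s θ : ℝ} (hθ : θ ∈ Ico s (s + P)) :
    lift c P s (c θ) = θ := by
  obtain ⟨h1, h2⟩ := hc.lift_mem (s := s) (mem_range_self θ)
  apply hc.eq_of_close h2
  rw [abs_lt]
  constructor <;> linarith [h1.1, h1.2, hθ.1, hθ.2]

lemma SCurve.lift_tendsto (hc : SCurve c P) {s θ : ℝ} (hθ : θ ∈ Ioo s (s + P)) :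
    Tendsto (lift c P s) (𝓝[range c] (c θ)) (𝓝 θ) := by
  apply (isCompact_Icc (a := s) (b := s + P)).tendsto_nhds_of_unique_mapClusterPt
  · filter_upwards [self_mem_nhdsWithin] with v hv
    have := (hc.lift_mem (s := s) hv).1
    exact ⟨this.1, this.2.le⟩
  · intro y hy hcl
    have h1 : MapClusterPt (c y) (𝓝[range c] (c θ)) (c ∘ lift c P s) :=
      hcl.continuousAt_comp hc.smooth.continuous.continuousAt
    have h2 : Tendsto (c ∘ lift c P s) (𝓝[range c] (c θ)) (𝓝 (c θ)) := by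
      have : Tendsto (fun v : V => v) (𝓝[range c] (c θ)) (𝓝 (c θ)) := tendsto_id.mono_left nhdsWithin_le_nhds
      apply this.congr'
      filter_upwards [self_mem_nhdsWithin] with v hv
      exact ((hc.lift_mem (s := s) hv).2).symm
    have h3 : c y = c θ := by
      have h4 : NeBot (𝓝 (c y) ⊓ map (c ∘ lift c P s) (𝓝[range c] (c θ))) := h1
      exact eq_of_nhds_neBot (h4.mono (inf_le_inf_left _ h2))
    apply hc.eq_of_close h3
    rw [abs_lt]
    constructor <;> linarith [hy.1, hy.2, hθ.1, hθ.2]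

lemma SCurve.lift_deriv [CompleteSpace V] (hc : SCurve c P) {s θ t₀ : ℝ} {e : ℝ → V} {e' : V}
    (hθ : θ ∈ Ioo s (s + P))
    (he : HasDerivAt e e' t₀) (her : ∀ᶠ t in 𝓝 t₀, e t ∈ range c) (h0 : e t₀ = c θ) :
    ∃ m : ℝ, e' = m • deriv c θ ∧ HasDerivAt (fun t => lift c P s (e t)) m t₀ := by
  have hτ0 : lift c P s (e t₀) = θ := by
    rw [h0]; exact hc.lift_apply ⟨hθ.1.le, hθ.2⟩
  have hτc : Tendsto (fun t => lift c P s (e t)) (𝓝 t₀) (𝓝 θ) := by
    apply (hc.lift_tendsto hθ).comp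
    rw [tendsto_nhdsWithin_iff]
    exact ⟨h0 ▸ he.continuousAt.tendsto, her⟩
  have hcd : HasStrictDerivAt c (deriv c θ) θ :=
    (hc.smooth.contDiffAt).hasStrictDerivAt (by norm_num)
  set w := deriv c θ with hw
  have hw0 : w ≠ 0 := hc.reg θ
  have hwn : (inner ℝ w w : ℝ) ≠ 0 := by
    rw [real_inner_self_eq_norm_sq]; positivity
  let g : ℝ → ℝ := fun x => inner ℝ w (c x)
  have hg : HasStrictDerivAt g (inner ℝ w w) θ :=
    (innerSL ℝ w).hasStrictFDerivAt.comp_hasStrictDerivAt θ hcd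
  set G := hg.localInverse g _ θ hwn with hG
  have hGd : HasStrictDerivAt G (inner ℝ w w : ℝ)⁻¹ (g θ) := hg.to_localInverse hwn
  have hGl : ∀ᶠ x in 𝓝 θ, G (g x) = x := hg.eventually_left_inverse hwn
  have hτG : ∀ᶠ t in 𝓝 t₀, lift c P s (e t) = G (inner ℝ w (e t)) := by
    filter_upwards [hτc.eventually hGl, her] with t ht htr
    have : g (lift c P s (e t)) = inner ℝ w (e t) := by
      change inner ℝ w (c (lift c P s (e t))) = _
      rw [(hc.lift_mem htr).2]
    rw [← this, ht]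
  have hge : g θ = inner ℝ w (e t₀) := by rw [h0]
  have hd : HasDerivAt (fun t => lift c P s (e t)) ((inner ℝ w w : ℝ)⁻¹ * inner ℝ w e') t₀ := by
    have h1 : HasDerivAt (fun t => (inner ℝ w (e t) : ℝ)) (inner ℝ w e') t₀ :=
      (innerSL ℝ w).hasFDerivAt.comp_hasDerivAt t₀ he
    have h2 : HasDerivAt G (inner ℝ w w : ℝ)⁻¹ (inner ℝ w (e t₀)) := hge ▸ hGd.hasDerivAt
    exact (h2.comp t₀ h1).congr_of_eventuallyEq hτG
  refine ⟨_, ?_, hd⟩
  have h3 : HasDerivAt (fun t => c (lift c P s (e t)))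
      (((inner ℝ w w : ℝ)⁻¹ * inner ℝ w e') • w) t₀ := by
    have h4 : HasDerivAt c w (lift c P s (e t₀)) := by rw [hτ0]; exact hcd.hasDerivAt
    exact h4.scomp t₀ hd
  have h5 : HasDerivAt (fun t => c (lift c P s (e t))) e' t₀ := by
    apply he.congr_of_eventuallyEq
    filter_upwards [her] with t ht
    exact (hc.lift_mem ht).2
  exact h5.unique h3

end H71CMC
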