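import Mathlib

open MeasureTheory Set Filter Topology
open scoped Manifold ContDiff

namespace H71CMC

section surfaces

variable {E : Type*} [NormedAddCommGroup E] [NormedSpace ℝ E] {K : Type*} [TopologicalSpace K]
  (I : ModelWithCorners ℝ E K)
  {V : Type*} [NormedAddCommGroup V] [InnerProductSpace ℝ V]
  {M : Type*} [TopologicalSpace M] [ChartedSpace K M]

/-- The differential at `p` of the map `f : M → V`. (In Mathlib the tangent space of `M` at `p` is
the model vector space `E`, seen through the preferred chart at `p`.) -/
noncomputable def diffAt (f : M → V) (p : M) : E →L[ℝ] V := mfderiv I 𝓘(ℝ, V) f p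

/-- `f : M → V` is of class `C^n` near `p` (up to the boundary, if `p` is a boundary point). -/
def SmoothAt (n : ℕ) (f : M → V) (p : M) : Prop := ContMDiffAt I 𝓘(ℝ, V) n f p

/-- There is an endomorphism `S` (the shape operator) of the tangent space at `p` with
`dN = - dX ∘ S` and trace `2 H`. -/
def MeanCurvatureAt (H : ℝ) (X N : M → V) (p : M) : Prop :=
  ∃ S : E →ₗ[ℝ] E, (∀ v, diffAt I N p v = - diffAt I X p (S v)) ∧ LinearMap.trace ℝ E S = 2 * H

/-- (Used for a surface `M` with boundary, `I = 𝓡∂ 2`, and `V = ℝ³`.)
`X : M → V` is an immersion of the manifold with boundary `M`, of class `C¹` up to the boundary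
and `C²` in the interior, with unit normal field `N` (continuous up to the boundary, `C¹` in the
interior), whose mean curvature is constantly `H`: the trace of the shape operator is `2 H`. For
surfaces in `ℝ³` this says that the average of the principal curvatures is `H`. -/
structure IsCMC (H : ℝ) (X N : M → V) : Prop where
  smooth : ∀ p, SmoothAt I 1 X p
  smooth_interior : ∀ p ∈ I.interior M, SmoothAt I 2 X p
  continuous_normal : Continuous N
  smooth_normal : ∀ p ∈ I.interior M, SmoothAt I 1 N p
  immersion : ∀ p, Function.Injective (diffAt I X p)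
  unit : ∀ p, ‖N p‖ = 1
  normal : ∀ p v, inner ℝ (N p) (diffAt I X p v) = 0
  mean_curvature : ∀ p ∈ I.interior M, MeanCurvatureAt I H X N p

end surfaces

/-- There is a compact orientable immersed surface with boundary the curve `C` and with mean
curvature constantly `H`: a compact (Hausdorff) smooth surface with boundary `M`, an immersion
`X : M → ℝ³` with unit normal field `N` and mean curvature `H`, which maps the boundary of `M`
bijectively onto `C`. -/
def HSurfaceExists (H : ℝ) (C : Set (EuclideanSpace ℝ (Fin 3))) : Prop :=
  ∃ (M : Type) (_ : TopologicalSpace M) (_ : ChartedSpace (EuclideanHalfSpace 2) M)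
    (_ : IsManifold (𝓡∂ 2) ∞ M) (_ : CompactSpace M) (_ : T2Space M)
    (X N : M → EuclideanSpace ℝ (Fin 3)), IsCMC (𝓡∂ 2) H X N ∧ BijOn X ((𝓡∂ 2).boundary M) C

/-- the embedding of the plane as the plane `z = 0` of space -/
noncomputable def emb (x : EuclideanSpace ℝ (Fin 2)) : EuclideanSpace ℝ (Fin 3) := !₂[x 0, x 1, 0]

/-- `γ` is a regular real-analytic parametrization, with period `P`, of a simple closed curve in
the plane. -/
structure IsAnalyticSimpleClosedCurve (γ : ℝ → EuclideanSpace ℝ (Fin 2)) (P : ℝ) : Prop where
  pos : 0 < P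
  analytic : ContDiff ℝ ω γ
  periodic : ∀ t, γ (t + P) = γ t
  simple : ∀ s t, γ s = γ t → ∃ n : ℤ, s = t + n * P
  regular : ∀ t, deriv γ t ≠ 0

/-- the length of the closed curve with parametrization `γ` of period `P` -/
noncomputable def curveLength (γ : ℝ → EuclideanSpace ℝ (Fin 2)) (P : ℝ) : ℝ :=
  ∫ t in (0 : ℝ)..P, ‖deriv γ t‖

/-- the volume of a set, as a real number -/
noncomputable def measureOf {V : Type*} [MeasureSpace V] (D : Set V) : ℝ := (volume D).toReal

/-- the area (Lebesgue measure) of a set in the plane -/
noncomputable def area (D : Set (EuclideanSpace ℝ (Fin 2))) : ℝ := measureOf D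

end H71CMC
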