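import Mathlib
import Pool.Agent.H71.CMC.HalfPlane

open MeasureTheory Set Filter Topology
open scoped Manifold ContDiff

namespace H71CMC

variable {M : Type*} [TopologicalSpace M] [ChartedSpace (EuclideanHalfSpace 2) M]
variable {F : Type*} [NormedAddCommGroup F] [NormedSpace ℝ F]

lemma HP_eq : HP = range (𝓡∂ 2) := (range_modelWithCornersEuclideanHalfSpace 2).symm

lemma isClosed_HP : IsClosed HP := by
  rw [HP_eq]; exact (𝓡∂ 2).isClosed_range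

lemma measurableSet_HP : MeasurableSet HP := isClosed_HP.measurableSet

lemma uniqueDiffOn_HP : UniqueDiffOn ℝ HP := by
  rw [HP_eq]; exact (𝓡∂ 2).uniqueDiffOn

/-- derivative of `f` in the chart centred at `i`, at the point with coordinate `x` -/
noncomputable def DD (f : M → F) (i : M) (x : E2) : E2 →L[ℝ] F :=
  fderivWithin ℝ (f ∘ (extChartAt (𝓡∂ 2) i).symm) HP x

section
variable (i : M)

lemma target_subset_HP : (extChartAt (𝓡∂ 2) i).target ⊆ HP := by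
  rw [HP_eq]; exact extChartAt_target_subset_range i

lemma target_mem_nhdsWithin {x : E2} (hx : x ∈ (extChartAt (𝓡∂ 2) i).target) :
    (extChartAt (𝓡∂ 2) i).target ∈ 𝓝[HP] x := by
  rw [HP_eq]
  exact extChartAt_target_mem_nhdsWithin_of_mem hx

variable [IsManifold (𝓡∂ 2) ∞ M]

lemma contDiffOn_rep {f : M → F} {n : ℕ} (hf : ContMDiff (𝓡∂ 2) 𝓘(ℝ, F) n f) :
    ContDiffOn ℝ n (f ∘ (extChartAt (𝓡∂ 2) i).symm) (extChartAt (𝓡∂ 2) i).target := by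
  rw [← contMDiffOn_iff_contDiffOn]
  have h1 : ContMDiffOn 𝓘(ℝ, E2) (𝓡∂ 2) n (extChartAt (𝓡∂ 2) i).symm
      (extChartAt (𝓡∂ 2) i).target := contMDiffOn_extChartAt_symm i
  exact hf.comp_contMDiffOn h1

lemma rep_at {f : M → F} {n : ℕ} {x : E2}
    (hf : ContMDiffAt (𝓡∂ 2) 𝓘(ℝ, F) n f ((extChartAt (𝓡∂ 2) i).symm x))
    (hx : x ∈ (extChartAt (𝓡∂ 2) i).target) :
    ContDiffWithinAt ℝ n (f ∘ (extChartAt (𝓡∂ 2) i).symm) HP x := by
  have h1 : ContMDiffWithinAt 𝓘(ℝ, E2) (𝓡∂ 2) n (extChartAt (𝓡∂ 2) i).symm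
      (extChartAt (𝓡∂ 2) i).target x := contMDiffOn_extChartAt_symm i x hx
  have h2 : ContMDiffWithinAt 𝓘(ℝ, E2) 𝓘(ℝ, F) n (f ∘ (extChartAt (𝓡∂ 2) i).symm)
      (extChartAt (𝓡∂ 2) i).target x := hf.comp_contMDiffWithinAt x h1
  exact (contMDiffWithinAt_iff_contDiffWithinAt.1 h2).mono_of_mem_nhdsWithin
    (target_mem_nhdsWithin i hx)

lemma differentiableWithinAt_rep {f : M → F} (hf : ContMDiff (𝓡∂ 2) 𝓘(ℝ, F) 1 f) {x : E2}
    (hx : x ∈ (extChartAt (𝓡∂ 2) i).target) :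
    DifferentiableWithinAt ℝ (f ∘ (extChartAt (𝓡∂ 2) i).symm) HP x := by
  have h := (contDiffOn_rep i (n := 1) (by exact_mod_cast hf)).differentiableOn (by norm_num) x hx
  exact h.mono_of_mem_nhdsWithin (target_mem_nhdsWithin i hx)

lemma hasFDerivWithinAt_rep {f : M → F} (hf : ContMDiff (𝓡∂ 2) 𝓘(ℝ, F) 1 f) {x : E2}
    (hx : x ∈ (extChartAt (𝓡∂ 2) i).target) :
    HasFDerivWithinAt (f ∘ (extChartAt (𝓡∂ 2) i).symm) (DD f i x) HP x :=
  (differentiableWithinAt_rep i hf hx).hasFDerivWithinAt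

lemma HP_mem_nhds {x : E2} (hx : 0 < x 0) : HP ∈ 𝓝 x := by
  have : IsOpen {y : E2 | 0 < y 0} := isOpen_lt continuous_const (by fun_prop)
  exact Filter.mem_of_superset (this.mem_nhds hx) (fun y (hy : 0 < y 0) => (le_of_lt hy : (0:ℝ) ≤ y 0))

lemma hasFDerivAt_rep {f : M → F} (hf : ContMDiff (𝓡∂ 2) 𝓘(ℝ, F) 1 f) {x : E2}
    (hx : x ∈ (extChartAt (𝓡∂ 2) i).target) (hx0 : 0 < x 0) :
    HasFDerivAt (f ∘ (extChartAt (𝓡∂ 2) i).symm) (DD f i x) x :=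
  (hasFDerivWithinAt_rep i hf hx).hasFDerivAt (HP_mem_nhds hx0)

omit [IsManifold (𝓡∂ 2) ∞ M] in
lemma DD_eq_target {f : M → F} {x : E2}
    (hx : x ∈ (extChartAt (𝓡∂ 2) i).target) :
    DD f i x = fderivWithin ℝ (f ∘ (extChartAt (𝓡∂ 2) i).symm) (extChartAt (𝓡∂ 2) i).target x := by
  unfold DD
  apply fderivWithin_congr_set
  have h1 := target_mem_nhdsWithin i hx
  have h2 := target_subset_HP i
  rw [mem_nhdsWithin_iff_exists_mem_nhds_inter] at h1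
  obtain ⟨u, hu, hu2⟩ := h1
  filter_upwards [hu] with y hy
  exact propext ⟨fun h => hu2 ⟨hy, h⟩, fun h => h2 h⟩

omit [IsManifold (𝓡∂ 2) ∞ M] in
lemma uniqueDiffOn_target : UniqueDiffOn ℝ (extChartAt (𝓡∂ 2) i).target :=
  uniqueDiffOn_extChartAt_target i

lemma continuousOn_DD {f : M → F} (hf : ContMDiff (𝓡∂ 2) 𝓘(ℝ, F) 1 f) :
    ContinuousOn (DD f i) (extChartAt (𝓡∂ 2) i).target := by
  have h := (contDiffOn_rep i (n := 1) (by exact_mod_cast hf)).continuousOn_fderivWithin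
    (uniqueDiffOn_target i) (by norm_num)
  exact h.congr (fun x hx => DD_eq_target i hx)

lemma contDiffOn_DD {f : M → F} (hf : ContMDiff (𝓡∂ 2) 𝓘(ℝ, F) 2 f) :
    ContDiffOn ℝ 1 (DD f i) (extChartAt (𝓡∂ 2) i).target := by
  have h := (contDiffOn_rep i (n := 2) (by exact_mod_cast hf)).fderivWithin
    (uniqueDiffOn_target i) (m := 1) (by norm_num)
  exact h.congr (fun x hx => DD_eq_target i hx)

end

section
variable [IsManifold (𝓡∂ 2) ∞ M]

/-- derivative of the change of chart -/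
noncomputable abbrev TC (i j p : M) : E2 →L[ℝ] E2 := tangentCoordChange (𝓡∂ 2) i j p

lemma DD_chain_at {f : M → F} {i j p : M} (hf : ContMDiffAt (𝓡∂ 2) 𝓘(ℝ, F) 1 f p)
    (hi : p ∈ (extChartAt (𝓡∂ 2) i).source) (hj : p ∈ (extChartAt (𝓡∂ 2) j).source) :
    DD f i (extChartAt (𝓡∂ 2) i p) = (DD f j (extChartAt (𝓡∂ 2) j p)).comp (TC i j p) := by
  have h1 : HasFDerivWithinAt ((extChartAt (𝓡∂ 2) j) ∘ (extChartAt (𝓡∂ 2) i).symm) (TC i j p)
      HP (extChartAt (𝓡∂ 2) i p) := by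
    rw [HP_eq]; exact hasFDerivWithinAt_tangentCoordChange ⟨hi, hj⟩
  have hpi : (extChartAt (𝓡∂ 2) i).symm (extChartAt (𝓡∂ 2) i p) = p := (extChartAt (𝓡∂ 2) i).left_inv hi
  have h2 : HasFDerivWithinAt (f ∘ (extChartAt (𝓡∂ 2) j).symm)
      (DD f j (extChartAt (𝓡∂ 2) j p)) HP
      (((extChartAt (𝓡∂ 2) j) ∘ (extChartAt (𝓡∂ 2) i).symm) (extChartAt (𝓡∂ 2) i p)) := by
    simp only [Function.comp_apply, hpi]
    have hd : DifferentiableWithinAt ℝ (f ∘ (extChartAt (𝓡∂ 2) j).symm) HP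
        (extChartAt (𝓡∂ 2) j p) :=
      (rep_at (n := 1) j (by
        rw [(extChartAt (𝓡∂ 2) j).left_inv hj]; exact_mod_cast hf)
        ((extChartAt (𝓡∂ 2) j).map_source hj)).differentiableWithinAt (by norm_num)
    exact hd.hasFDerivWithinAt
  have hev : (extChartAt (𝓡∂ 2) i).symm ⁻¹' (extChartAt (𝓡∂ 2) j).source ∈
      𝓝[HP] (extChartAt (𝓡∂ 2) i p) := by
    have h := extChartAt_preimage_mem_nhdsWithin' (I := 𝓡∂ 2) (s := univ) hi
      (mem_nhdsWithin_of_mem_nhds ((isOpen_extChartAt_source (I := 𝓡∂ 2) j).mem_nhds hj))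
    rwa [preimage_univ, univ_inter, ← HP_eq] at h
  have hmaps : MapsTo ((extChartAt (𝓡∂ 2) j) ∘ (extChartAt (𝓡∂ 2) i).symm)
      (HP ∩ (extChartAt (𝓡∂ 2) i).symm ⁻¹' (extChartAt (𝓡∂ 2) j).source) HP := by
    intro x hx
    exact target_subset_HP j ((extChartAt (𝓡∂ 2) j).map_source hx.2)
  have h3 : HasFDerivWithinAt ((f ∘ (extChartAt (𝓡∂ 2) j).symm) ∘
      ((extChartAt (𝓡∂ 2) j) ∘ (extChartAt (𝓡∂ 2) i).symm))
      ((DD f j (extChartAt (𝓡∂ 2) j p)).comp (TC i j p))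
      (HP ∩ (extChartAt (𝓡∂ 2) i).symm ⁻¹' (extChartAt (𝓡∂ 2) j).source)
      (extChartAt (𝓡∂ 2) i p) :=
    h2.comp _ (h1.mono inter_subset_left) hmaps
  have hmem : (HP ∩ (extChartAt (𝓡∂ 2) i).symm ⁻¹' (extChartAt (𝓡∂ 2) j).source) ∈
      𝓝[HP] (extChartAt (𝓡∂ 2) i p) := inter_mem self_mem_nhdsWithin hev
  have h4 : HasFDerivWithinAt (f ∘ (extChartAt (𝓡∂ 2) i).symm)
      ((DD f j (extChartAt (𝓡∂ 2) j p)).comp (TC i j p)) HP (extChartAt (𝓡∂ 2) i p) := by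
    have h5 := h3.mono_of_mem_nhdsWithin hmem
    apply h5.congr_of_eventuallyEq
    · filter_upwards [hmem] with x hx
      simp only [Function.comp_apply]
      rw [(extChartAt (𝓡∂ 2) j).left_inv hx.2]
    · simp only [Function.comp_apply, hpi]
      rw [(extChartAt (𝓡∂ 2) j).left_inv hj]
  exact h4.fderivWithin (uniqueDiffOn_HP _ (target_subset_HP i ((extChartAt (𝓡∂ 2) i).map_source hi)))

lemma DD_chain {f : M → F} (hf : ContMDiff (𝓡∂ 2) 𝓘(ℝ, F) 1 f) {i j p : M}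
    (hi : p ∈ (extChartAt (𝓡∂ 2) i).source) (hj : p ∈ (extChartAt (𝓡∂ 2) j).source) :
    DD f i (extChartAt (𝓡∂ 2) i p) = (DD f j (extChartAt (𝓡∂ 2) j p)).comp (TC i j p) :=
  DD_chain_at (hf p) hi hj

omit [IsManifold (𝓡∂ 2) ∞ M] in
lemma DD_self_at {f : M → F} {p : M} (hf : ContMDiffAt (𝓡∂ 2) 𝓘(ℝ, F) 1 f p) :
    DD f p (extChartAt (𝓡∂ 2) p p) = mfderiv (𝓡∂ 2) 𝓘(ℝ, F) f p := by
  have hd : MDifferentiableAt (𝓡∂ 2) 𝓘(ℝ, F) f p := hf.mdifferentiableAt (by norm_num)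
  rw [mfderiv, if_pos hd]
  unfold DD
  rw [HP_eq]
  rfl

omit [IsManifold (𝓡∂ 2) ∞ M] in
lemma DD_self {f : M → F} (hf : ContMDiff (𝓡∂ 2) 𝓘(ℝ, F) 1 f) (p : M) :
    DD f p (extChartAt (𝓡∂ 2) p p) = mfderiv (𝓡∂ 2) 𝓘(ℝ, F) f p := DD_self_at (hf p)

lemma DD_mfderiv_at {f : M → F} {i p : M} (hf : ContMDiffAt (𝓡∂ 2) 𝓘(ℝ, F) 1 f p)
    (hi : p ∈ (extChartAt (𝓡∂ 2) i).source) :
    DD f i (extChartAt (𝓡∂ 2) i p) = (mfderiv (𝓡∂ 2) 𝓘(ℝ, F) f p : E2 →L[ℝ] F).comp (TC i p p) := by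
  rw [DD_chain_at hf hi (mem_extChartAt_source p), DD_self_at hf]
  rfl

/-- a function which is `C¹` near `p` has derivative `DD` in the chart at interior points -/
lemma hasFDerivAt_rep_at {f : M → F} {i : M} {x : E2}
    (hf : ContMDiffAt (𝓡∂ 2) 𝓘(ℝ, F) 1 f ((extChartAt (𝓡∂ 2) i).symm x))
    (hx : x ∈ (extChartAt (𝓡∂ 2) i).target) (hx0 : 0 < x 0) :
    HasFDerivAt (f ∘ (extChartAt (𝓡∂ 2) i).symm) (DD f i x) x :=
  (((rep_at (n := 1) i (by exact_mod_cast hf) hx).differentiableWithinAt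
    (by norm_num)).hasFDerivWithinAt).hasFDerivAt (HP_mem_nhds hx0)

lemma contDiffAt_rep_at {f : M → F} {i : M} {x : E2}
    (hf : ContMDiffAt (𝓡∂ 2) 𝓘(ℝ, F) 2 f ((extChartAt (𝓡∂ 2) i).symm x))
    (hx : x ∈ (extChartAt (𝓡∂ 2) i).target) (hx0 : 0 < x 0) :
    ContDiffAt ℝ 2 (f ∘ (extChartAt (𝓡∂ 2) i).symm) x :=
  (rep_at (n := 2) i (by exact_mod_cast hf) hx).contDiffAt (HP_mem_nhds hx0)

lemma mem_boundary_iff {i p : M} (hi : p ∈ (extChartAt (𝓡∂ 2) i).source) :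
    p ∈ (𝓡∂ 2).boundary M ↔ (extChartAt (𝓡∂ 2) i p) 0 = 0 := by
  have hi' : p ∈ (chartAt (EuclideanHalfSpace 2) i).source := by rwa [extChartAt_source] at hi
  have h1 := (𝓡∂ 2).isInteriorPoint_iff_of_mem_atlas (n := ∞) (by simp)
    (chart_mem_atlas (EuclideanHalfSpace 2) i) hi'
  have h2 : p ∈ (𝓡∂ 2).boundary M ↔ ¬ (𝓡∂ 2).IsInteriorPoint p :=
    (𝓡∂ 2).isBoundaryPoint_iff_not_isInteriorPoint p
  rw [h2, h1]
  have hpos : 0 ≤ (extChartAt (𝓡∂ 2) i p) 0 :=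
    target_subset_HP i ((extChartAt (𝓡∂ 2) i).map_source hi)
  have h3 : ((chartAt (EuclideanHalfSpace 2) i).extend (𝓡∂ 2)) p ∈
      interior ((chartAt (EuclideanHalfSpace 2) i).extend (𝓡∂ 2)).target ↔
      0 < (extChartAt (𝓡∂ 2) i p) 0 := by
    constructor
    · intro h
      have := OpenPartialHomeomorph.interior_extend_target_subset_interior_range _ h
      rw [interior_range_modelWithCornersEuclideanHalfSpace] at this
      exact this
    · intro h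
      apply (chartAt (EuclideanHalfSpace 2) i).mem_interior_extend_target
      · exact (chartAt (EuclideanHalfSpace 2) i).map_source hi'
      · rw [interior_range_modelWithCornersEuclideanHalfSpace]
        exact h
  rw [h3]
  constructor
  · intro h; linarith
  · intro h; linarith

lemma mem_interior_of_pos {i : M} {x : E2} (hx : x ∈ (extChartAt (𝓡∂ 2) i).target)
    (hx0 : 0 < x 0) : (extChartAt (𝓡∂ 2) i).symm x ∈ (𝓡∂ 2).interior M := by
  rw [← ModelWithCorners.compl_boundary]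
  intro h
  rw [mem_boundary_iff ((extChartAt (𝓡∂ 2) i).map_target hx),
    (extChartAt (𝓡∂ 2) i).right_inv hx] at h
  linarith

end

end H71CMC
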