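import Mathlib
import Pool.Agent.H71.CMC.Chart

open MeasureTheory Set Filter Topology
open scoped Manifold ContDiff

namespace H71CMC

variable {M : Type*} [TopologicalSpace M] [ChartedSpace (EuclideanHalfSpace 2) M]

/-- overlap of the charts `i`, `j` in the coordinates of `i` -/
def Ov (i j : M) : Set E2 :=
  (extChartAt (𝓡∂ 2) i).target ∩ (extChartAt (𝓡∂ 2) i).symm ⁻¹' (extChartAt (𝓡∂ 2) j).source

/-- change of chart -/
noncomputable def tau (i j : M) : E2 → E2 :=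
  (extChartAt (𝓡∂ 2) j) ∘ (extChartAt (𝓡∂ 2) i).symm

lemma measurableSet_target (i : M) : MeasurableSet (extChartAt (𝓡∂ 2) i).target := by
  rw [extChartAt_target]
  apply MeasurableSet.inter
  · exact ((chartAt (EuclideanHalfSpace 2) i).open_target.preimage
      (𝓡∂ 2).continuous_symm).measurableSet
  · exact (𝓡∂ 2).isClosed_range.measurableSet

lemma measurableSet_Ov (i j : M) : MeasurableSet (Ov i j) := by
  have h : Ov i j = (𝓡∂ 2).symm ⁻¹' ((chartAt (EuclideanHalfSpace 2) i).symm ≫ₕ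
      (chartAt (EuclideanHalfSpace 2) j)).source ∩ range (𝓡∂ 2) := by
    rw [← (𝓡∂ 2).image_eq, ← ModelWithCorners.extendCoordChange_source]
    rfl
  rw [h]
  apply MeasurableSet.inter
  · exact (OpenPartialHomeomorph.open_source _ |>.preimage
      (𝓡∂ 2).continuous_symm).measurableSet
  · exact (𝓡∂ 2).isClosed_range.measurableSet

lemma mem_Ov {i j p : M} (hi : p ∈ (extChartAt (𝓡∂ 2) i).source)
    (hj : p ∈ (extChartAt (𝓡∂ 2) j).source) : extChartAt (𝓡∂ 2) i p ∈ Ov i j :=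
  ⟨(extChartAt (𝓡∂ 2) i).map_source hi, by simp only [mem_preimage, (extChartAt (𝓡∂ 2) i).left_inv hi, hj]⟩

lemma Ov_exists {i j : M} {x : E2} (hx : x ∈ Ov i j) :
    ∃ p, p ∈ (extChartAt (𝓡∂ 2) i).source ∧ p ∈ (extChartAt (𝓡∂ 2) j).source ∧
      x = extChartAt (𝓡∂ 2) i p ∧ (extChartAt (𝓡∂ 2) i).symm x = p ∧
      tau i j x = extChartAt (𝓡∂ 2) j p :=
  ⟨(extChartAt (𝓡∂ 2) i).symm x, (extChartAt (𝓡∂ 2) i).map_target hx.1, hx.2,
    ((extChartAt (𝓡∂ 2) i).right_inv hx.1).symm, rfl, rfl⟩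

lemma tau_mem {i j : M} {x : E2} (hx : x ∈ Ov i j) : tau i j x ∈ Ov j i := by
  obtain ⟨p, hi, hj, rfl, -, h⟩ := Ov_exists hx
  rw [h]; exact mem_Ov hj hi

lemma tau_tau {i j : M} {x : E2} (hx : x ∈ Ov i j) : tau j i (tau i j x) = x := by
  obtain ⟨p, hi, hj, rfl, -, h⟩ := Ov_exists hx
  rw [h]
  simp only [tau, Function.comp_apply, (extChartAt (𝓡∂ 2) j).left_inv hj]

lemma tau_image (i j : M) : tau i j '' Ov i j = Ov j i := by
  apply Subset.antisymm
  · rintro _ ⟨x, hx, rfl⟩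
    exact tau_mem hx
  · intro y hy
    exact ⟨tau j i y, tau_mem hy, tau_tau hy⟩

lemma tau_injOn (i j : M) : InjOn (tau i j) (Ov i j) := by
  intro x hx y hy h
  rw [← tau_tau hx, ← tau_tau hy, h]

variable [IsManifold (𝓡∂ 2) ∞ M]

lemma hasFDerivWithinAt_tau {i j : M} {x : E2} (hx : x ∈ Ov i j) :
    HasFDerivWithinAt (tau i j) (TC i j ((extChartAt (𝓡∂ 2) i).symm x)) HP x := by
  obtain ⟨p, hi, hj, rfl, h1, h⟩ := Ov_exists hx
  rw [h1, HP_eq]
  exact hasFDerivWithinAt_tangentCoordChange ⟨hi, hj⟩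

theorem cov (i j : M) (g : E2 → ℝ) :
    ∫ y in Ov j i, g y =
      ∫ x in Ov i j, |(TC i j ((extChartAt (𝓡∂ 2) i).symm x)).det| * g (tau i j x) := by
  rw [← tau_image i j]
  rw [integral_image_eq_integral_abs_det_fderiv_smul volume (measurableSet_Ov i j)
    (fun x hx => (hasFDerivWithinAt_tau hx).mono (fun y hy => target_subset_HP i hy.1))
    (tau_injOn i j) g]
  simp only [smul_eq_mul]

end H71CMC
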