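import Mathlib
import Pool.Agent.H71.CMC.Cov

open MeasureTheory Set Filter Topology
open scoped Manifold ContDiff

namespace H71CMC

variable {M : Type*} [TopologicalSpace M] [ChartedSpace (EuclideanHalfSpace 2) M]
variable {F : Type*} [NormedAddCommGroup F] [InnerProductSpace ℝ F]

/-- the 1-form `⟨A, dX⟩` in the chart `i` -/
noncomputable def om (A X : M → F) (i : M) (x : E2) : E2 →L[ℝ] ℝ :=
  (innerSL ℝ (A ((extChartAt (𝓡∂ 2) i).symm x))).comp (DD X i x)

lemma om_apply (A X : M → F) (i : M) (x v : E2) :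
    om A X i x v = inner ℝ (A ((extChartAt (𝓡∂ 2) i).symm x)) (DD X i x v) := rfl

/-- wedge product of two covectors, evaluated on the standard basis -/
noncomputable def wedge (a b : E2 →L[ℝ] ℝ) : ℝ := a b0 * b b1 - a b1 * b b0

/-- `df ∧ ⟨A, dX⟩` in the chart `i` -/
noncomputable def WW (f : M → ℝ) (A X : M → F) (i : M) (x : E2) : ℝ :=
  wedge (DD f i x) (om A X i x)

section indic

lemma indicator_continuousOn {T K : Set E2} (hT : ∀ x ∈ T, T ∈ 𝓝[HP] x) (hK : IsCompact K)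
    (hKT : K ⊆ T) {h : E2 → ℝ} (hc : ContinuousOn h T) (h0 : ∀ x ∈ T, x ∉ K → h x = 0) :
    ContinuousOn (T.indicator h) HP := by
  intro x hx
  by_cases hxT : x ∈ T
  · have h1 : ContinuousWithinAt h HP x :=
      (hc x hxT).mono_of_mem_nhdsWithin (hT x hxT)
    apply h1.congr_of_eventuallyEq
    · filter_upwards [hT x hxT] with y hy
      simp [indicator_of_mem hy]
    · simp [indicator_of_mem hxT]
  · have hxK : x ∉ K := fun h => hxT (hKT h)
    have h1 : ContinuousWithinAt (fun _ : E2 => (0 : ℝ)) HP x := continuousWithinAt_const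
    apply h1.congr_of_eventuallyEq
    · filter_upwards [mem_nhdsWithin_of_mem_nhds (hK.isClosed.isOpen_compl.mem_nhds hxK)] with y hy
      by_cases hyT : y ∈ T
      · simp [indicator_of_mem hyT, h0 y hyT hy]
      · simp [indicator_of_notMem hyT]
    · simp [indicator_of_notMem hxT]

lemma indicator_zero {T K : Set E2} 
    {h : E2 → ℝ} (h0 : ∀ x ∈ T, x ∉ K → h x = 0) {x : E2} (hx : x ∉ K) :
    T.indicator h x = 0 := by
  by_cases hxT : x ∈ T
  · simp [indicator_of_mem hxT, h0 x hxT hx]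
  · simp [indicator_of_notMem hxT]

lemma indicator_integrableOn {T K : Set E2} (hT : ∀ x ∈ T, T ∈ 𝓝[HP] x) (hTH : T ⊆ HP)
    (hK : IsCompact K)
    (hKT : K ⊆ T) {h : E2 → ℝ} (hc : ContinuousOn h T) (h0 : ∀ x ∈ T, x ∉ K → h x = 0) :
    IntegrableOn (T.indicator h) HP := by
  have h1 : IntegrableOn (T.indicator h) K :=
    ((indicator_continuousOn hT hK hKT hc h0).mono (hKT.trans hTH)).integrableOn_compact hK
  have h2 : IntegrableOn (T.indicator h) (HP \ K) := by
    have h3 : IntegrableOn (fun _ : E2 => (0 : ℝ)) (HP \ K) := integrableOn_zero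
    refine h3.congr_fun ?_ (measurableSet_HP.diff hK.measurableSet)
    intro x hx
    exact (indicator_zero h0 hx.2).symm
  have h3 := h1.union h2
  rwa [union_sdiff_cancel (hKT.trans hTH)] at h3

lemma ae_pos : ∀ᵐ x : E2, x 0 ≠ 0 := by
  have h : (volume : Measure (ℝ × ℝ)) {x | x.1 = 0} = 0 := by
    have : {x : ℝ × ℝ | x.1 = 0} = ({0} : Set ℝ) ×ˢ (univ : Set ℝ) := by
      ext x; simp
    rw [this, Measure.volume_eq_prod, Measure.prod_prod]
    simp
  rw [ae_iff]
  have h2 : {a : E2 | ¬ a 0 ≠ 0} = prodEquiv ⁻¹' {x : ℝ × ℝ | x.1 = 0} := by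
    ext x; simp [prodEquiv_apply]
  rw [h2]
  rw [prodEquiv_mp.measure_preimage, h]
  exact ((measurableSet_eq_fun measurable_fst measurable_const)).nullMeasurableSet

end indic

section chartSupport

variable (i : M)

lemma T_nhds {x : E2} (hx : x ∈ (extChartAt (𝓡∂ 2) i).target) :
    (extChartAt (𝓡∂ 2) i).target ∈ 𝓝[HP] x := target_mem_nhdsWithin i hx

/-- image of the support of `ρ` in the chart `i` -/
noncomputable def KK (ρ : M → ℝ) (i : M) : Set E2 := extChartAt (𝓡∂ 2) i '' tsupport ρ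

variable {i}

lemma isCompact_KK [CompactSpace M] {ρ : M → ℝ}
    (hs : tsupport ρ ⊆ (extChartAt (𝓡∂ 2) i).source) : IsCompact (KK ρ i) :=
  (isClosed_tsupport ρ).isCompact.image_of_continuousOn ((continuousOn_extChartAt i).mono hs)

lemma KK_subset {ρ : M → ℝ}
    (hs : tsupport ρ ⊆ (extChartAt (𝓡∂ 2) i).source) :
    KK ρ i ⊆ (extChartAt (𝓡∂ 2) i).target := by
  rintro _ ⟨p, hp, rfl⟩
  exact (extChartAt (𝓡∂ 2) i).map_source (hs hp)

lemma notMem_KK {ρ : M → ℝ} {x : E2} (hx : x ∈ (extChartAt (𝓡∂ 2) i).target)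
    (hxK : x ∉ KK ρ i) : (extChartAt (𝓡∂ 2) i).symm x ∉ tsupport ρ := by
  intro h
  exact hxK ⟨_, h, (extChartAt (𝓡∂ 2) i).right_inv hx⟩

lemma rho_zero {ρ : M → ℝ} {x : E2} (hx : x ∈ (extChartAt (𝓡∂ 2) i).target)
    (hxK : x ∉ KK ρ i) : ρ ((extChartAt (𝓡∂ 2) i).symm x) = 0 :=
  image_eq_zero_of_notMem_tsupport (notMem_KK hx hxK)

lemma DD_zero_of_notMem_tsupport {ρ : M → ℝ} {x : E2} (hx : x ∈ (extChartAt (𝓡∂ 2) i).target)
    (hxK : (extChartAt (𝓡∂ 2) i).symm x ∉ tsupport ρ) : DD ρ i x = 0 := by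
  set p := (extChartAt (𝓡∂ 2) i).symm x with hp
  have hpi : p ∈ (extChartAt (𝓡∂ 2) i).source := (extChartAt (𝓡∂ 2) i).map_target hx
  have hxp : x = extChartAt (𝓡∂ 2) i p := ((extChartAt (𝓡∂ 2) i).right_inv hx).symm
  have hev : (extChartAt (𝓡∂ 2) i).symm ⁻¹' (tsupport ρ)ᶜ ∈ 𝓝[HP] x := by
    have h := extChartAt_preimage_mem_nhdsWithin' (I := 𝓡∂ 2) (s := univ) hpi
      (mem_nhdsWithin_of_mem_nhds ((isClosed_tsupport ρ).isOpen_compl.mem_nhds hxK))
    rwa [preimage_univ, univ_inter, ← HP_eq, ← hxp] at h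
  unfold DD
  have h1 : HasFDerivWithinAt (ρ ∘ (extChartAt (𝓡∂ 2) i).symm) (0 : E2 →L[ℝ] ℝ) HP x := by
    apply (hasFDerivWithinAt_const (0 : ℝ) x HP).congr_of_eventuallyEq
    · filter_upwards [hev] with y hy
      exact image_eq_zero_of_notMem_tsupport (f := ρ) hy
    · exact image_eq_zero_of_notMem_tsupport (f := ρ) hxK
  exact h1.fderivWithin (uniqueDiffOn_HP _ (target_subset_HP i hx))

variable [IsManifold (𝓡∂ 2) ∞ M]

omit [IsManifold (𝓡∂ 2) ∞ M] in
lemma continuousOn_comp_symm {G : Type*} [TopologicalSpace G] {f : M → G} (hf : Continuous f) :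
    ContinuousOn (fun x => f ((extChartAt (𝓡∂ 2) i).symm x)) (extChartAt (𝓡∂ 2) i).target :=
  hf.comp_continuousOn (continuousOn_extChartAt_symm i)

lemma continuousOn_om {A X : M → F} (hA : Continuous A) (hX : ContMDiff (𝓡∂ 2) 𝓘(ℝ, F) 1 X)
    (v : E2) :
    ContinuousOn (fun x => om A X i x v) (extChartAt (𝓡∂ 2) i).target := by
  have h1 : ContinuousOn (fun x => A ((extChartAt (𝓡∂ 2) i).symm x)) (extChartAt (𝓡∂ 2) i).target :=
    continuousOn_comp_symm hA
  have h2 : ContinuousOn (fun x => DD X i x v) (extChartAt (𝓡∂ 2) i).target :=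
    (continuousOn_DD i hX).clm_apply continuousOn_const
  exact ContinuousOn.inner (𝕜 := ℝ) h1 h2

lemma continuousOn_WW {A X : M → F} {f : M → ℝ} (hf : ContMDiff (𝓡∂ 2) 𝓘(ℝ, ℝ) 1 f)
    (hA : Continuous A) (hX : ContMDiff (𝓡∂ 2) 𝓘(ℝ, F) 1 X) :
    ContinuousOn (WW f A X i) (extChartAt (𝓡∂ 2) i).target := by
  have h1 : ∀ v : E2, ContinuousOn (fun x => DD f i x v) (extChartAt (𝓡∂ 2) i).target :=
    fun v => (continuousOn_DD i hf).clm_apply continuousOn_const
  unfold WW wedge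
  exact ((h1 b0).mul (continuousOn_om hA hX b1)).sub ((h1 b1).mul (continuousOn_om hA hX b0))

/-- local Stokes theorem in the chart `i` -/
theorem local_stokes [CompactSpace M] {A X : M → F} {ρ : M → ℝ}
    (hs : tsupport ρ ⊆ (extChartAt (𝓡∂ 2) i).source)
    (hρ : ContMDiff (𝓡∂ 2) 𝓘(ℝ, ℝ) 1 ρ)
    (hA : Continuous A)
    (hAd : ∀ x ∈ (extChartAt (𝓡∂ 2) i).target, 0 < x 0 →
      HasFDerivAt (A ∘ (extChartAt (𝓡∂ 2) i).symm) (DD A i x) x)
    (hX1 : ContMDiff (𝓡∂ 2) 𝓘(ℝ, F) 1 X)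
    (hXd : ∀ x ∈ (extChartAt (𝓡∂ 2) i).target, 0 < x 0 →
      ContDiffAt ℝ 2 (X ∘ (extChartAt (𝓡∂ 2) i).symm) x)
    (hcl : ∀ x ∈ (extChartAt (𝓡∂ 2) i).target, 0 < x 0 →
      inner ℝ (DD A i x b0) (DD X i x b1) = inner ℝ (DD A i x b1) (DD X i x b0)) :
    ∫ x in (extChartAt (𝓡∂ 2) i).target, WW ρ A X i x =
      - ∫ t, (extChartAt (𝓡∂ 2) i).target.indicator
        (fun x => ρ ((extChartAt (𝓡∂ 2) i).symm x) * om A X i x b1) (pt 0 t) := by
  set T := (extChartAt (𝓡∂ 2) i).target with hTdef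
  set ψ := (extChartAt (𝓡∂ 2) i).symm with hψ
  have hK := isCompact_KK (i := i) hs
  have hKT : KK ρ i ⊆ T := KK_subset hs
  have hTn : ∀ x ∈ T, T ∈ 𝓝[HP] x := fun x hx => T_nhds i hx
  have hρc : ContinuousOn (fun x => ρ (ψ x)) T := continuousOn_comp_symm hρ.continuous
  have hc : ∀ v : E2, ContinuousOn (fun x => ρ (ψ x) * om A X i x v) T := fun v =>
    hρc.mul (continuousOn_om hA hX1 v)
  have h0 : ∀ v : E2, ∀ x ∈ T, x ∉ KK ρ i → ρ (ψ x) * om A X i x v = 0 := fun v x hx hxK => by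
    rw [rho_zero hx hxK, zero_mul]
  have hcW : ContinuousOn (WW ρ A X i) T := continuousOn_WW hρ hA hX1
  have h0W : ∀ x ∈ T, x ∉ KK ρ i → WW ρ A X i x = 0 := fun x hx hxK => by
    simp [WW, wedge, DD_zero_of_notMem_tsupport hx (notMem_KK hx hxK)]
  -- second derivative
  let X2 : E2 → E2 →L[ℝ] E2 →L[ℝ] F := fun x => fderiv ℝ (DD X i) x
  have hTopen : ∀ x ∈ T, 0 < x 0 → T ∈ 𝓝 x := by
    intro x hx hx0
    have := hTn x hx
    rwa [nhdsWithin_eq_nhds.2 (HP_mem_nhds hx0)] at this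
  have hX2 : ∀ x ∈ T, 0 < x 0 → HasFDerivAt (DD X i) (X2 x) x := by
    intro x hx hx0
    have h1 : ContDiffAt ℝ 1 (fderiv ℝ (X ∘ ψ)) x := (hXd x hx hx0).fderiv_right (by norm_num)
    have h2 : DD X i =ᶠ[𝓝 x] fderiv ℝ (X ∘ ψ) := by
      have hpos : {y : E2 | 0 < y 0} ∈ 𝓝 x :=
        (isOpen_lt continuous_const (by fun_prop)).mem_nhds hx0
      filter_upwards [hTopen x hx hx0, hpos] with y hy hy0
      exact ((hasFDerivAt_rep i hX1 hy hy0).fderiv).symm
    exact ((h1.congr_of_eventuallyEq h2).differentiableAt (by norm_num)).hasFDerivAt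
  have hsymm : ∀ x ∈ T, 0 < x 0 → X2 x b0 b1 = X2 x b1 b0 := by
    intro x hx hx0
    have hev : ∀ᶠ y in 𝓝 x, HasFDerivAt (X ∘ ψ) (DD X i y) y := by
      have hpos : {y : E2 | 0 < y 0} ∈ 𝓝 x :=
        (isOpen_lt continuous_const (by fun_prop)).mem_nhds hx0
      filter_upwards [hTopen x hx hx0, hpos] with y hy hy0
      exact hasFDerivAt_rep i hX1 hy hy0
    exact second_derivative_symmetric_of_eventually hev (hX2 x hx hx0) b0 b1
  -- derivative of the coefficient functions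
  let cd : E2 → E2 → E2 →L[ℝ] ℝ := fun v x =>
    ρ (ψ x) • ((fderivInnerCLM ℝ (A (ψ x), DD X i x v)).comp
      ((DD A i x).prod ((ContinuousLinearMap.apply ℝ F v).comp (X2 x)))) +
        (om A X i x v) • DD ρ i x
  have hcd : ∀ v : E2, ∀ x ∈ T, 0 < x 0 →
      HasFDerivAt (fun x => ρ (ψ x) * om A X i x v) (cd v x) x := by
    intro v x hx hx0
    have h1 : HasFDerivAt (fun x => ρ (ψ x)) (DD ρ i x) x := hasFDerivAt_rep i hρ hx hx0
    have h2 : HasFDerivAt (fun x => A (ψ x)) (DD A i x) x := hAd x hx hx0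
    have h3 : HasFDerivAt (fun x => DD X i x v) ((ContinuousLinearMap.apply ℝ F v).comp (X2 x)) x :=
      ((ContinuousLinearMap.apply ℝ F v).hasFDerivAt).comp x (hX2 x hx hx0)
    have h4 := h2.inner ℝ h3
    exact h1.mul h4
  have hcdv : ∀ v w : E2, ∀ x, cd v x w = ρ (ψ x) * (inner ℝ (A (ψ x)) (X2 x w v) +
      inner ℝ (DD A i x w) (DD X i x v)) + om A X i x v * DD ρ i x w := by
    intro v w x
    simp [cd, fderivInnerCLM_apply]
  classical
  have hkey : ∀ x : E2, 0 < x 0 → (if x ∈ T then cd b1 x else 0) b0 +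
      (if x ∈ T then - cd b0 x else 0) b1 = T.indicator (WW ρ A X i) x := by
    intro x hx0
    by_cases hx : x ∈ T
    · rw [if_pos hx, if_pos hx, indicator_of_mem hx]
      rw [neg_apply, hcdv, hcdv, hsymm x hx hx0, hcl x hx hx0]
      simp only [WW, wedge]
      ring
    · rw [if_neg hx, if_neg hx, indicator_of_notMem hx]
      simp
  have hout : ∀ x : E2, 0 < x 0 → x ∉ T → ∀ h : E2 → ℝ, (∀ y ∈ T, y ∉ KK ρ i → h y = 0) →
      HasFDerivAt (T.indicator h) (0 : E2 →L[ℝ] ℝ) x := by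
    intro x hx0 hxT h hh
    have hxK : x ∉ KK ρ i := fun h => hxT (hKT h)
    apply (hasFDerivAt_const (0 : ℝ) x).congr_of_eventuallyEq
    filter_upwards [hK.isClosed.isOpen_compl.mem_nhds hxK] with y hy
    exact indicator_zero hh hy
  have hin : ∀ x : E2, 0 < x 0 → x ∈ T → ∀ h : E2 → ℝ, ∀ h' : E2 →L[ℝ] ℝ, HasFDerivAt h h' x →
      HasFDerivAt (T.indicator h) h' x := by
    intro x hx0 hxT h h' hh
    apply hh.congr_of_eventuallyEq
    filter_upwards [hTopen x hxT hx0] with y hy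
    rw [indicator_of_mem hy]
  have hneg0 : ∀ x ∈ T, x ∉ KK ρ i → -(ρ (ψ x) * om A X i x b0) = 0 := fun x hx hxK => by
    rw [h0 b0 x hx hxK, neg_zero]
  have key := halfplane_stokes
    (T.indicator fun x => ρ (ψ x) * om A X i x b1)
    (T.indicator fun x => -(ρ (ψ x) * om A X i x b0))
    (fun x => if x ∈ T then cd b1 x else 0)
    (fun x => if x ∈ T then - cd b0 x else 0)
    (KK ρ i) hK
    (indicator_continuousOn hTn hK hKT (hc b1) (h0 b1))
    (indicator_continuousOn hTn hK hKT (hc b0).neg hneg0)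
    (fun x _ hxK => indicator_zero (h0 b1) hxK)
    (fun x _ hxK => indicator_zero hneg0 hxK)
    (fun x hx0 => by
      by_cases hx : x ∈ T
      · rw [if_pos hx]
        exact hin x hx0 hx _ _ (hcd b1 x hx hx0)
      · rw [if_neg hx]
        exact hout x hx0 hx _ (h0 b1))
    (fun x hx0 => by
      by_cases hx : x ∈ T
      · rw [if_pos hx]
        exact hin x hx0 hx _ _ (hcd b0 x hx hx0).neg
      · rw [if_neg hx]
        exact hout x hx0 hx _ hneg0)
    (by
      refine (indicator_integrableOn hTn (target_subset_HP i) hK hKT hcW h0W).congr ?_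
      filter_upwards [ae_restrict_of_ae ae_pos, ae_restrict_mem measurableSet_HP] with x hx hxH
      exact (hkey x (lt_of_le_of_ne hxH (Ne.symm hx))).symm)
  rw [← key]
  have e1 : ∫ x in HP, ((if x ∈ T then cd b1 x else 0) b0 +
      (if x ∈ T then - cd b0 x else 0) b1) = ∫ x in HP, T.indicator (WW ρ A X i) x := by
    apply setIntegral_congr_ae measurableSet_HP
    filter_upwards [ae_pos] with x hx hxH
    exact hkey x (lt_of_le_of_ne hxH (Ne.symm hx))
  rw [e1, setIntegral_indicator (measurableSet_target i),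
    inter_eq_self_of_subset_right (target_subset_HP i)]

end chartSupport

end H71CMC
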