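import Mathlib
import Pool.Agent.H71.CMC.Local

open MeasureTheory Set Filter Topology
open scoped Manifold ContDiff

namespace H71CMC

lemma det_formula (L : E2 →L[ℝ] E2) :
    L.det = (L b0) 0 * (L b1) 1 - (L b1) 0 * (L b0) 1 := by
  have h : L.det = LinearMap.det (L : E2 →ₗ[ℝ] E2) := rfl
  rw [h, ← LinearMap.det_toMatrix (EuclideanSpace.basisFun (Fin 2) ℝ).toBasis, Matrix.det_fin_two]
  simp only [LinearMap.toMatrix_apply]
  have e0 : (EuclideanSpace.basisFun (Fin 2) ℝ).toBasis 0 = b0 := by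
    ext i; fin_cases i <;> simp
  have e1 : (EuclideanSpace.basisFun (Fin 2) ℝ).toBasis 1 = b1 := by
    ext i; fin_cases i <;> simp
  rw [e0, e1]
  simp

lemma expand (v : E2) : v = v 0 • b0 + v 1 • b1 := by
  ext i; fin_cases i <;> simp

lemma wedge_comp (a b : E2 →L[ℝ] ℝ) (L : E2 →L[ℝ] E2) :
    wedge (a.comp L) (b.comp L) = L.det * wedge a b := by
  rw [det_formula]
  unfold wedge
  simp only [ContinuousLinearMap.comp_apply]
  have h1 : ∀ c : E2 →L[ℝ] ℝ, ∀ v : E2, c v = v 0 * c b0 + v 1 * c b1 := by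
    intro c v
    conv_lhs => rw [expand v]
    simp
  rw [h1 a (L b0), h1 b (L b1), h1 a (L b1), h1 b (L b0)]
  ring

variable {M : Type*} [TopologicalSpace M] [ChartedSpace (EuclideanHalfSpace 2) M]
variable {F : Type*} [NormedAddCommGroup F] [InnerProductSpace ℝ F]
variable [IsManifold (𝓡∂ 2) ∞ M]

lemma om_chain {A X : M → F} (hX : ContMDiff (𝓡∂ 2) 𝓘(ℝ, F) 1 X) {i j p : M}
    (hi : p ∈ (extChartAt (𝓡∂ 2) i).source) (hj : p ∈ (extChartAt (𝓡∂ 2) j).source) :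
    om A X i (extChartAt (𝓡∂ 2) i p) = (om A X j (extChartAt (𝓡∂ 2) j p)).comp (TC i j p) := by
  unfold om
  rw [DD_chain hX hi hj, (extChartAt (𝓡∂ 2) i).left_inv hi, (extChartAt (𝓡∂ 2) j).left_inv hj]
  rfl

lemma WW_chain {f : M → ℝ} {A X : M → F} (hf : ContMDiff (𝓡∂ 2) 𝓘(ℝ, ℝ) 1 f)
    (hX : ContMDiff (𝓡∂ 2) 𝓘(ℝ, F) 1 X) {i j : M} {x : E2} (hx : x ∈ Ov i j) :
    WW f A X i x = (TC i j ((extChartAt (𝓡∂ 2) i).symm x)).det * WW f A X j (tau i j x) := by
  obtain ⟨p, hi, hj, rfl, h1, h⟩ := Ov_exists hx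
  rw [h1, h]
  unfold WW
  rw [DD_chain hf hi hj, om_chain hX hi hj, wedge_comp]

section glob

variable [CompactSpace M] {A X : M → F} {ρ : M → M → ℝ} {U : M → Set M} {s : M → ℝ}

omit [IsManifold (𝓡∂ 2) ∞ M] [CompactSpace M] in
lemma WW_zero {f : M → ℝ} {i : M} {x : E2} (hx : x ∈ (extChartAt (𝓡∂ 2) i).target)
    (h : (extChartAt (𝓡∂ 2) i).symm x ∉ tsupport f) : WW f A X i x = 0 := by
  simp [WW, wedge, DD_zero_of_notMem_tsupport hx h]

omit [IsManifold (𝓡∂ 2) ∞ M] [CompactSpace M] in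
lemma integrableOn_T {h : E2 → ℝ} {i : M} {K : Set E2} (hK : IsCompact K)
    (hKT : K ⊆ (extChartAt (𝓡∂ 2) i).target)
    (hc : ContinuousOn h (extChartAt (𝓡∂ 2) i).target)
    (h0 : ∀ x ∈ (extChartAt (𝓡∂ 2) i).target, x ∉ K → h x = 0) :
    IntegrableOn h (extChartAt (𝓡∂ 2) i).target := by
  have h1 := indicator_integrableOn (fun x hx => T_nhds i hx) (target_subset_HP i) hK hKT hc h0
  rw [integrableOn_indicator_iff (measurableSet_target i)] at h1
  rwa [inter_eq_self_of_subset_left (target_subset_HP i)] at h1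

omit [CompactSpace M] in
lemma continuousOn_term {f g : M → ℝ} (hf : Continuous f)
    (hg : ContMDiff (𝓡∂ 2) 𝓘(ℝ, ℝ) 1 g)
    (hA : Continuous A) (hX : ContMDiff (𝓡∂ 2) 𝓘(ℝ, F) 1 X) (i : M) :
    ContinuousOn (fun x => f ((extChartAt (𝓡∂ 2) i).symm x) * WW g A X i x)
      (extChartAt (𝓡∂ 2) i).target :=
  (continuousOn_comp_symm hf).mul (continuousOn_WW hg hA hX)

omit [CompactSpace M] in
lemma step_B (hρ : ∀ i, ContMDiff (𝓡∂ 2) 𝓘(ℝ, ℝ) 1 (ρ i))
    (hX : ContMDiff (𝓡∂ 2) 𝓘(ℝ, F) 1 X)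
    (hU : ∀ i, U i ⊆ (extChartAt (𝓡∂ 2) i).source) (hsub : ∀ i, tsupport (ρ i) ⊆ U i)
    (hs : ∀ i, s i = 1 ∨ s i = -1)
    (hor : ∀ i j p, p ∈ U i → p ∈ U j → 0 < s i * s j * (TC i j p).det) (i j : M) :
    s i * ∫ x in (extChartAt (𝓡∂ 2) i).target,
        ρ j ((extChartAt (𝓡∂ 2) i).symm x) * WW (ρ i) A X i x =
      s j * ∫ x in (extChartAt (𝓡∂ 2) j).target,
        ρ j ((extChartAt (𝓡∂ 2) j).symm x) * WW (ρ i) A X j x := by
  have e1 : ∫ x in (extChartAt (𝓡∂ 2) i).target,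
        ρ j ((extChartAt (𝓡∂ 2) i).symm x) * WW (ρ i) A X i x = ∫ x in Ov i j,
        ρ j ((extChartAt (𝓡∂ 2) i).symm x) * WW (ρ i) A X i x := by
    apply setIntegral_eq_of_subset_of_forall_sdiff_eq_zero (measurableSet_target i)
      (fun x hx => hx.1)
    intro x hx
    have : (extChartAt (𝓡∂ 2) i).symm x ∉ tsupport (ρ j) := fun h =>
      hx.2 ⟨hx.1, hU j (hsub j h)⟩
    rw [image_eq_zero_of_notMem_tsupport this, zero_mul]
  have e2 : ∫ x in (extChartAt (𝓡∂ 2) j).target,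
        ρ j ((extChartAt (𝓡∂ 2) j).symm x) * WW (ρ i) A X j x = ∫ x in Ov j i,
        ρ j ((extChartAt (𝓡∂ 2) j).symm x) * WW (ρ i) A X j x := by
    apply setIntegral_eq_of_subset_of_forall_sdiff_eq_zero (measurableSet_target j)
      (fun x hx => hx.1)
    intro x hx
    have : (extChartAt (𝓡∂ 2) j).symm x ∉ tsupport (ρ i) := fun h =>
      hx.2 ⟨hx.1, hU i (hsub i h)⟩
    rw [WW_zero hx.1 this, mul_zero]
  rw [e1, e2, cov i j, ← integral_const_mul, ← integral_const_mul]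
  apply setIntegral_congr_fun (measurableSet_Ov i j)
  intro x hx
  obtain ⟨p, hi, hj, hxp, h1, h⟩ := Ov_exists hx
  have hW := WW_chain (A := A) (hρ i) hX hx
  simp only []
  rw [hW, h1, h, (extChartAt (𝓡∂ 2) j).left_inv hj]
  by_cases hpj : p ∈ U j
  · by_cases hpi : p ∈ U i
    · have hd := hor i j p hpi hpj
      have : s i * (TC i j p).det = s j * |(TC i j p).det| := by
        rcases hs i with h1 | h1 <;> rcases hs j with h2 | h2 <;> rw [h1, h2] at hd ⊢
        · rw [abs_of_pos (by linarith)]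
        · rw [abs_of_neg (by linarith)]; ring
        · rw [abs_of_neg (by linarith)]; ring
        · rw [abs_of_pos (by linarith)]
      linear_combination (ρ j p * WW (ρ i) A X j (extChartAt (𝓡∂ 2) j p)) * this
    · have : WW (ρ i) A X j (extChartAt (𝓡∂ 2) j p) = 0 := by
        apply WW_zero ((extChartAt (𝓡∂ 2) j).map_source hj)
        rw [(extChartAt (𝓡∂ 2) j).left_inv hj]
        exact fun h => hpi (hsub i h)
      rw [this]; ring
  · have : ρ j p = 0 := image_eq_zero_of_notMem_tsupport fun h => hpj (hsub j h)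
    rw [this]; ring

theorem global_stokes (hρ : ∀ i, ContMDiff (𝓡∂ 2) 𝓘(ℝ, ℝ) 1 (ρ i))
    (hA : Continuous A)
    (hAd : ∀ i, ∀ x ∈ (extChartAt (𝓡∂ 2) i).target, 0 < x 0 →
      HasFDerivAt (A ∘ (extChartAt (𝓡∂ 2) i).symm) (DD A i x) x)
    (hX1 : ContMDiff (𝓡∂ 2) 𝓘(ℝ, F) 1 X)
    (hXd : ∀ i, ∀ x ∈ (extChartAt (𝓡∂ 2) i).target, 0 < x 0 →
      ContDiffAt ℝ 2 (X ∘ (extChartAt (𝓡∂ 2) i).symm) x)
    (hcl : ∀ i, ∀ x ∈ (extChartAt (𝓡∂ 2) i).target, 0 < x 0 →
      inner ℝ (DD A i x b0) (DD X i x b1) = inner ℝ (DD A i x b1) (DD X i x b0))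
    (hU : ∀ i, U i ⊆ (extChartAt (𝓡∂ 2) i).source) (hsub : ∀ i, tsupport (ρ i) ⊆ U i)
    (hs : ∀ i, s i = 1 ∨ s i = -1)
    (hor : ∀ i j p, p ∈ U i → p ∈ U j → 0 < s i * s j * (TC i j p).det)
    (G : Finset M) (hsum : ∀ p, ∑ i ∈ G, ρ i p = 1) :
    ∑ i ∈ G, s i * ∫ t, (extChartAt (𝓡∂ 2) i).target.indicator
        (fun x => ρ i ((extChartAt (𝓡∂ 2) i).symm x) * om A X i x b1) (pt 0 t) = 0 := by
  have h1 : ∀ i ∈ G, s i * ∫ t, (extChartAt (𝓡∂ 2) i).target.indicator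
        (fun x => ρ i ((extChartAt (𝓡∂ 2) i).symm x) * om A X i x b1) (pt 0 t) =
      - ∑ j ∈ G, s j * ∫ x in (extChartAt (𝓡∂ 2) j).target,
        ρ j ((extChartAt (𝓡∂ 2) j).symm x) * WW (ρ i) A X j x := by
    intro i _
    have h2 := local_stokes (i := i) ((hsub i).trans (hU i)) (hρ i) hA (hAd i) hX1 (hXd i) (hcl i)
    have h3 : ∫ x in (extChartAt (𝓡∂ 2) i).target, WW (ρ i) A X i x =
        ∑ j ∈ G, ∫ x in (extChartAt (𝓡∂ 2) i).target,
        ρ j ((extChartAt (𝓡∂ 2) i).symm x) * WW (ρ i) A X i x := by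
      rw [← integral_finsetSum]
      · apply setIntegral_congr_fun (measurableSet_target i)
        intro x hx
        simp only []
        rw [← Finset.sum_mul, hsum, one_mul]
      · intro j _
        apply integrableOn_T (isCompact_KK ((hsub i).trans (hU i)))
          (KK_subset ((hsub i).trans (hU i)))
          (continuousOn_term (hρ j).continuous (hρ i) hA hX1 i)
        intro x hx hxK
        rw [WW_zero hx (notMem_KK hx hxK), mul_zero]
    have h4 : (∫ t, (extChartAt (𝓡∂ 2) i).target.indicator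
        (fun x => ρ i ((extChartAt (𝓡∂ 2) i).symm x) * om A X i x b1) (pt 0 t)) =
        - ∫ x in (extChartAt (𝓡∂ 2) i).target, WW (ρ i) A X i x := by
      rw [h2, neg_neg]
    rw [h4, h3, mul_neg, Finset.mul_sum]
    congr 1
    apply Finset.sum_congr rfl
    intro j _
    exact step_B hρ hX1 hU hsub hs hor i j
  rw [Finset.sum_congr rfl h1, Finset.sum_neg_distrib, Finset.sum_comm, neg_eq_zero]
  apply Finset.sum_eq_zero
  intro j _
  rw [← Finset.mul_sum, ← integral_finsetSum]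
  · have : ∫ x in (extChartAt (𝓡∂ 2) j).target, ∑ i ∈ G,
        ρ j ((extChartAt (𝓡∂ 2) j).symm x) * WW (ρ i) A X j x = 0 := by
      apply setIntegral_eq_zero_of_forall_eq_zero
      intro x hx
      rw [← Finset.mul_sum]
      have hz : ∑ i ∈ G, DD (ρ i) j x = 0 := by
        have h5 : HasFDerivWithinAt (∑ i ∈ G, ((ρ i) ∘ (extChartAt (𝓡∂ 2) j).symm))
            (∑ i ∈ G, DD (ρ i) j x) HP x :=
          HasFDerivWithinAt.sum fun i _ => hasFDerivWithinAt_rep j (hρ i) hx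
        have h6 : (∑ i ∈ G, ((ρ i) ∘ (extChartAt (𝓡∂ 2) j).symm)) = fun _ => (1 : ℝ) := by
          ext y
          simp [hsum]
        rw [h6] at h5
        exact (uniqueDiffOn_HP.eq (target_subset_HP j hx) h5 (hasFDerivWithinAt_const _ _ _))
      have : ∑ i ∈ G, WW (ρ i) A X j x = 0 := by
        have h7 : ∀ v : E2, ∑ i ∈ G, DD (ρ i) j x v = 0 := fun v => by
          rw [← sum_apply, hz]; rfl
        unfold WW wedge
        rw [Finset.sum_sub_distrib, ← Finset.sum_mul, ← Finset.sum_mul, h7, h7]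
        ring
      rw [this, mul_zero]
    rw [this, mul_zero]
  · intro i _
    apply integrableOn_T (isCompact_KK ((hsub j).trans (hU j)))
      (KK_subset ((hsub j).trans (hU j)))
      (continuousOn_term (hρ j).continuous (hρ i) hA hX1 j)
    intro x hx hxK
    rw [rho_zero hx hxK, zero_mul]

end glob

end H71CMC
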