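import Mathlib
import Pool.Agent.H71.CMC.Defs
import Pool.Agent.H71.CMC.Global

open MeasureTheory Set Filter Topology
open scoped Manifold ContDiff

namespace H71CMC

/-- triple product -/
noncomputable def trip (a b c : E3) : ℝ :=
  a 0 * (b 1 * c 2 - b 2 * c 1) - a 1 * (b 0 * c 2 - b 2 * c 0) + a 2 * (b 0 * c 1 - b 1 * c 0)

lemma inner3 (a b : E3) : inner ℝ a b = a 0 * b 0 + a 1 * b 1 + a 2 * b 2 := by
  rw [PiLp.inner_apply, Fin.sum_univ_three]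
  simp
  ring

lemma ext3 {a b : E3} (h0 : a 0 = b 0) (h1 : a 1 = b 1) (h2 : a 2 = b 2) : a = b := by
  ext i; fin_cases i <;> assumption

/-- the vector field `Y(x) × n + 2 H Z(x)` -/
noncomputable def Afun (α β H : ℝ) (x n : E3) : E3 :=
  !₂[-(α - β * x 0) * n 1,
    (α - β * x 0) * n 0 - β * x 2 * n 2 + 2 * H * (α * x 0 - β * (x 0 ^ 2 + x 2 ^ 2) / 2),
    β * x 2 * n 1]

section alg

lemma closed_alg (α β H x0 x2 n0 n1 n2 a0 a1 a2 b0 b1 b2 v0 v1 w0 w1 s00 s01 s10 s11 : ℝ)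
    (hna : n0 * a0 + n1 * a1 + n2 * a2 = 0) (hnb : n0 * b0 + n1 * b1 + n2 * b2 = 0)
    (htr : s00 + s11 = 2 * H)
    (X0 X1 X2 N0 N1 N2 Y0 Y1 Y2 K0 K1 K2 : ℝ)
    (hX0 : X0 = v0 * a0 + v1 * b0) (hX1 : X1 = v0 * a1 + v1 * b1) (hX2 : X2 = v0 * a2 + v1 * b2)
    (hY0 : Y0 = w0 * a0 + w1 * b0) (hY1 : Y1 = w0 * a1 + w1 * b1) (hY2 : Y2 = w0 * a2 + w1 * b2)
    (hN0 : N0 = -((v0 * s00 + v1 * s01) * a0 + (v0 * s10 + v1 * s11) * b0))
    (hN1 : N1 = -((v0 * s00 + v1 * s01) * a1 + (v0 * s10 + v1 * s11) * b1))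
    (hN2 : N2 = -((v0 * s00 + v1 * s01) * a2 + (v0 * s10 + v1 * s11) * b2))
    (hK0 : K0 = -((w0 * s00 + w1 * s01) * a0 + (w0 * s10 + w1 * s11) * b0))
    (hK1 : K1 = -((w0 * s00 + w1 * s01) * a1 + (w0 * s10 + w1 * s11) * b1))
    (hK2 : K2 = -((w0 * s00 + w1 * s01) * a2 + (w0 * s10 + w1 * s11) * b2)) :
    (β * X0 * n1 - (α - β * x0) * N1) * Y0 +
    (-β * X0 * n0 + (α - β * x0) * N0 - β * X2 * n2 - β * x2 * N2 +
      2 * H * (α * X0 - β * (x0 * X0 + x2 * X2))) * Y1 +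
    (β * X2 * n1 + β * x2 * N1) * Y2 =
    (β * Y0 * n1 - (α - β * x0) * K1) * X0 +
    (-β * Y0 * n0 + (α - β * x0) * K0 - β * Y2 * n2 - β * x2 * K2 +
      2 * H * (α * Y0 - β * (x0 * Y0 + x2 * Y2))) * X1 +
    (β * Y2 * n1 + β * x2 * K1) * X2 := by
  subst hX0 hX1 hX2 hY0 hY1 hY2 hN0 hN1 hN2 hK0 hK1 hK2
  linear_combination (v0 * w1 - v1 * w0) * (-β * b1) * hna + (v0 * w1 - v1 * w0) * (β * a1) * hnb -
    (v0 * w1 - v1 * w0) * (β * x2 * (a1 * b2 - a2 * b1) + (α - β * x0) * (a0 * b1 - a1 * b0)) * htr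

lemma Afun_deriv (α β H : ℝ) {X N : E2 → E3} {X' N' A' : E2 →L[ℝ] E3} {x : E2}
    (hX : HasFDerivAt X X' x) (hN : HasFDerivAt N N' x)
    (hA : HasFDerivAt (fun y => Afun α β H (X y) (N y)) A' x) (v : E2) :
    (A' v) 0 = β * (X' v) 0 * (N x) 1 - (α - β * (X x) 0) * (N' v) 1 ∧
    (A' v) 1 = -β * (X' v) 0 * (N x) 0 + (α - β * (X x) 0) * (N' v) 0
      - β * (X' v) 2 * (N x) 2 - β * (X x) 2 * (N' v) 2 +
      2 * H * (α * (X' v) 0 - β * ((X x) 0 * (X' v) 0 + (X x) 2 * (X' v) 2)) ∧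
    (A' v) 2 = β * (X' v) 2 * (N x) 1 + β * (X x) 2 * (N' v) 1 := by
  have comp : ∀ {f : E2 → E3} {f' : E2 →L[ℝ] E3} (_ : HasFDerivAt f f' x) (k : Fin 3),
      HasFDerivAt (fun y => (f y) k) ((EuclideanSpace.proj k : E3 →L[ℝ] ℝ).comp f') x :=
    fun hf k => ((EuclideanSpace.proj k : E3 →L[ℝ] ℝ).hasFDerivAt).comp x hf
  have dX := fun k => comp hX k
  have dN := fun k => comp hN k
  have dA := fun k => comp hA k
  refine ⟨?_, ?_, ?_⟩
  · have h1 := ((((dX 0).const_mul β).const_sub α).neg).mul (dN 1)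
    have h2 := DFunLike.congr_fun ((dA 0).unique h1) v
    simp at h2
    rw [h2]; ring
  · have h1 := (((((dX 0).const_mul β).const_sub α).mul (dN 0)).sub
      (((dX 2).const_mul β).mul (dN 2))).add
      ((((dX 0).const_mul α).sub ((((dX 0).pow 2).add ((dX 2).pow 2)).const_mul (β / 2))).const_mul
        (2 * H))
    have h3 := h1.congr_of_eventuallyEq (f₁ := fun y => (Afun α β H (X y) (N y)) 1)
      (Filter.Eventually.of_forall fun y => by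
        simp only [Afun, Pi.add_apply, Pi.sub_apply, Pi.mul_apply]
        simp
        left; ring)
    have h2 := DFunLike.congr_fun ((dA 1).unique h3) v
    simp at h2
    rw [h2]; ring
  · have h1 := (((dX 2).const_mul β)).mul (dN 1)
    have h2 := DFunLike.congr_fun ((dA 2).unique h1) v
    simp at h2
    rw [h2]; ring

end alg

section

variable {M : Type*} [TopologicalSpace M] [ChartedSpace (EuclideanHalfSpace 2) M]
variable [IsManifold (𝓡∂ 2) ∞ M]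
variable {H : ℝ} {X N : M → E3}

omit [IsManifold (𝓡∂ 2) ∞ M] in
lemma IsCMC.c1 (h : IsCMC (𝓡∂ 2) H X N) : ContMDiff (𝓡∂ 2) 𝓘(ℝ, E3) 1 X := fun p => by
  have := h.smooth p
  unfold SmoothAt at this
  exact_mod_cast this

omit [IsManifold (𝓡∂ 2) ∞ M] in
lemma IsCMC.c2 (h : IsCMC (𝓡∂ 2) H X N) (p : M) (hp : p ∈ (𝓡∂ 2).interior M) :
    ContMDiffAt (𝓡∂ 2) 𝓘(ℝ, E3) 2 X p := by
  have := h.smooth_interior p hp
  unfold SmoothAt at this
  exact_mod_cast this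

omit [IsManifold (𝓡∂ 2) ∞ M] in
lemma IsCMC.n1 (h : IsCMC (𝓡∂ 2) H X N) (p : M) (hp : p ∈ (𝓡∂ 2).interior M) :
    ContMDiffAt (𝓡∂ 2) 𝓘(ℝ, E3) 1 N p := by
  have := h.smooth_normal p hp
  unfold SmoothAt at this
  exact_mod_cast this

lemma Afun_contDiff (α β H : ℝ) : ContDiff ℝ 1 (fun z : E3 × E3 => Afun α β H z.1 z.2) := by
  rw [contDiff_euclidean]
  intro k
  fin_cases k <;> simp [Afun] <;> fun_prop

omit [IsManifold (𝓡∂ 2) ∞ M] in
lemma IsCMC.Afun_continuous (h : IsCMC (𝓡∂ 2) H X N) (α β : ℝ) :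
    Continuous (fun p => Afun α β H (X p) (N p)) :=
  (Afun_contDiff α β H).continuous.comp (h.c1.continuous.prodMk h.continuous_normal)

lemma IsCMC.Afun_hasFDerivAt (h : IsCMC (𝓡∂ 2) H X N) (α β : ℝ) {i : M} {x : E2}
    (hx : x ∈ (extChartAt (𝓡∂ 2) i).target) (hx0 : 0 < x 0) :
    HasFDerivAt ((fun p => Afun α β H (X p) (N p)) ∘ (extChartAt (𝓡∂ 2) i).symm)
      (DD (fun p => Afun α β H (X p) (N p)) i x) x := by
  have hp := mem_interior_of_pos hx hx0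
  have hX : ContMDiffAt (𝓡∂ 2) 𝓘(ℝ, E3) 1 X ((extChartAt (𝓡∂ 2) i).symm x) := h.c1 _
  have hN := h.n1 _ hp
  have h1 : ContMDiffAt (𝓡∂ 2) 𝓘(ℝ, E3) 1 (fun p => Afun α β H (X p) (N p))
      ((extChartAt (𝓡∂ 2) i).symm x) :=
    ((Afun_contDiff α β H).contMDiff.contMDiffAt).comp _ (hX.prodMk_space hN)
  exact hasFDerivAt_rep_at h1 hx hx0

/-- In the chart `i` the derivative of `N` is minus the derivative of `X` composed with the shape
operator. -/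
lemma IsCMC.chart_alg (h : IsCMC (𝓡∂ 2) H X N) {i : M} {x : E2}
    (hx : x ∈ (extChartAt (𝓡∂ 2) i).target) (hx0 : 0 < x 0) :
    ∃ (a b : E3) (L : E2 →L[ℝ] E2) (s00 s01 s10 s11 : ℝ), s00 + s11 = 2 * H ∧
      inner ℝ (N ((extChartAt (𝓡∂ 2) i).symm x)) a = 0 ∧
      inner ℝ (N ((extChartAt (𝓡∂ 2) i).symm x)) b = 0 ∧
      (∀ v, DD X i x v = (L v) 0 • a + (L v) 1 • b) ∧
      (∀ v, DD N i x v = -(((L v) 0 * s00 + (L v) 1 * s01) • a +
        ((L v) 0 * s10 + (L v) 1 * s11) • b)) := by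
  have hpint := mem_interior_of_pos hx hx0
  set p := (extChartAt (𝓡∂ 2) i).symm x with hp
  have hpi : p ∈ (extChartAt (𝓡∂ 2) i).source := (extChartAt (𝓡∂ 2) i).map_target hx
  have hxp : x = extChartAt (𝓡∂ 2) i p := ((extChartAt (𝓡∂ 2) i).right_inv hx).symm
  have hX1 : ContMDiff (𝓡∂ 2) 𝓘(ℝ, E3) 1 X := h.c1
  obtain ⟨S, hS, hSt⟩ := h.mean_curvature p hpint
  let S' : E2 →ₗ[ℝ] E2 := S
  let dX : E2 →L[ℝ] E3 := mfderiv (𝓡∂ 2) 𝓘(ℝ, E3) X p
  let dN : E2 →L[ℝ] E3 := mfderiv (𝓡∂ 2) 𝓘(ℝ, E3) N p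
  have hS' : ∀ v : E2, dN v = - dX (S' v) := hS
  have htr : LinearMap.trace ℝ E2 S' = 2 * H := hSt
  have hdX : ∀ v : E2, dX v = v 0 • dX b0 + v 1 • dX b1 := by
    intro v
    conv_lhs => rw [expand v]
    simp
  have hSv : ∀ v : E2, S' v = v 0 • S' b0 + v 1 • S' b1 := by
    intro v
    conv_lhs => rw [expand v]
    simp
  refine ⟨dX b0, dX b1, TC i p p, (S' b0) 0, (S' b1) 0, (S' b0) 1, (S' b1) 1, ?_, h.normal p _,
    h.normal p _, ?_, ?_⟩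
  · rw [← htr, LinearMap.trace_eq_matrix_trace ℝ (EuclideanSpace.basisFun (Fin 2) ℝ).toBasis,
      Matrix.trace_fin_two]
    simp only [LinearMap.toMatrix_apply]
    have e0 : (EuclideanSpace.basisFun (Fin 2) ℝ).toBasis 0 = b0 := by
      ext i; fin_cases i <;> simp
    have e1 : (EuclideanSpace.basisFun (Fin 2) ℝ).toBasis 1 = b1 := by
      ext i; fin_cases i <;> simp
    rw [e0, e1]
    simp
  · intro v
    have := DD_mfderiv_at (h.c1 p) hpi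
    rw [hxp, this]
    exact hdX _
  · intro v
    have := DD_mfderiv_at (h.n1 p hpint) hpi
    rw [hxp, this]
    change dN (TC i p p v) = _
    rw [hS', hdX, hSv]
    simp

theorem IsCMC.closed (h : IsCMC (𝓡∂ 2) H X N) (α β : ℝ) {i : M} {x : E2}
    (hx : x ∈ (extChartAt (𝓡∂ 2) i).target) (hx0 : 0 < x 0) (v w : E2) :
    inner ℝ (DD (fun p => Afun α β H (X p) (N p)) i x v) (DD X i x w) =
      inner ℝ (DD (fun p => Afun α β H (X p) (N p)) i x w) (DD X i x v) := by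
  have hpint := mem_interior_of_pos hx hx0
  obtain ⟨a, b, L, s00, s01, s10, s11, htr, hna, hnb, hX, hN⟩ := h.chart_alg hx hx0
  have hAd' := h.Afun_hasFDerivAt α β hx hx0
  set ψ := (extChartAt (𝓡∂ 2) i).symm with hψ
  have hXd : HasFDerivAt (fun y => X (ψ y)) (DD X i x) x := hasFDerivAt_rep i h.c1 hx hx0
  have hNd : HasFDerivAt (fun y => N (ψ y)) (DD N i x) x :=
    hasFDerivAt_rep_at (h.n1 _ hpint) hx hx0
  have hAd : HasFDerivAt (fun y => Afun α β H (X (ψ y)) (N (ψ y)))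
      (DD (fun p => Afun α β H (X p) (N p)) i x) x := hAd'
  have key := Afun_deriv α β H hXd hNd hAd
  rw [inner3] at hna hnb
  have hXv : ∀ v k, (DD X i x v) k = (L v) 0 * a k + (L v) 1 * b k := by
    intro v k
    rw [hX v]; simp
  have hNv : ∀ v k, (DD N i x v) k = -(((L v) 0 * s00 + (L v) 1 * s01) * a k +
        ((L v) 0 * s10 + (L v) 1 * s11) * b k) := by
    intro v k
    rw [hN v]; simp
  rw [inner3, inner3, (key v).1, (key v).2.1, (key v).2.2, (key w).1, (key w).2.1, (key w).2.2]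
  exact closed_alg α β H _ _ _ _ _ (a 0) (a 1) (a 2) (b 0) (b 1) (b 2) _ _ _ _ s00 s01 s10 s11
    hna hnb htr _ _ _ _ _ _ _ _ _ _ _ _ (hXv v 0) (hXv v 1) (hXv v 2) (hXv w 0) (hXv w 1)
    (hXv w 2) (hNv v 0) (hNv v 1) (hNv v 2) (hNv w 0) (hNv w 1) (hNv w 2)

end

end H71CMC
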