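import Mathlib
import Pool.Agent.H71.CMC.Surface

open MeasureTheory Set Filter Topology
open scoped Manifold ContDiff

namespace H71CMC

lemma trip_smul_add (a b c : E3) (s t u v : ℝ) :
    trip (s • a + t • b) (u • a + v • b) c = (s * v - u * t) * trip a b c := by
  simp [trip]; ring

lemma trip_zero {a b n : E3} (hn : ‖n‖ = 1) (ha : inner ℝ n a = 0) (hb : inner ℝ n b = 0)
    (h : trip a b n = 0) : (inner ℝ b b : ℝ) • a = (inner ℝ a b : ℝ) • b := by
  have hn2 : n 0 * n 0 + n 1 * n 1 + n 2 * n 2 = 1 := by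
    rw [← inner3, real_inner_self_eq_norm_sq, hn]; norm_num
  rw [inner3] at ha hb
  unfold trip at h
  -- cross product c = a × b
  have c0 : a 1 * b 2 - a 2 * b 1 = 0 := by
    linear_combination (-(a 1 * b 2 - a 2 * b 1)) * hn2 + n 0 * h -
      n 1 * (a 2 * hb - b 2 * ha) + n 2 * (a 1 * hb - b 1 * ha)
  have c1 : a 2 * b 0 - a 0 * b 2 = 0 := by
    linear_combination (-(a 2 * b 0 - a 0 * b 2)) * hn2 + n 1 * h -
      n 2 * (a 0 * hb - b 0 * ha) + n 0 * (a 2 * hb - b 2 * ha)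
  have c2 : a 0 * b 1 - a 1 * b 0 = 0 := by
    linear_combination (-(a 0 * b 1 - a 1 * b 0)) * hn2 + n 2 * h -
      n 0 * (a 1 * hb - b 1 * ha) + n 1 * (a 0 * hb - b 0 * ha)
  rw [inner3, inner3]
  apply ext3 <;> simp
  · linear_combination b 1 * c2 - b 2 * c1
  · linear_combination b 2 * c0 - b 0 * c2
  · linear_combination b 0 * c1 - b 1 * c0

section

variable {M : Type*} [TopologicalSpace M] [ChartedSpace (EuclideanHalfSpace 2) M]
variable {H : ℝ} {X N : M → E3}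

/-- signed area density in the chart `i` -/
noncomputable def JJ (X N : M → E3) (i : M) (x : E2) : ℝ :=
  trip (DD X i x b0) (DD X i x b1) (N ((extChartAt (𝓡∂ 2) i).symm x))

variable [IsManifold (𝓡∂ 2) ∞ M]

lemma continuousOn_JJ (hX : ContMDiff (𝓡∂ 2) 𝓘(ℝ, E3) 1 X) (hN : Continuous N) (i : M) :
    ContinuousOn (JJ X N i) (extChartAt (𝓡∂ 2) i).target := by
  have hc : ∀ (v : E2) (k : Fin 3),
      ContinuousOn (fun x => (DD X i x v) k) (extChartAt (𝓡∂ 2) i).target := fun v k =>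
    (EuclideanSpace.proj k : E3 →L[ℝ] ℝ).continuous.comp_continuousOn
      ((continuousOn_DD i hX).clm_apply continuousOn_const)
  have hn : ∀ k : Fin 3, ContinuousOn (fun x => (N ((extChartAt (𝓡∂ 2) i).symm x)) k)
      (extChartAt (𝓡∂ 2) i).target := fun k =>
    (EuclideanSpace.proj k : E3 →L[ℝ] ℝ).continuous.comp_continuousOn
      (continuousOn_comp_symm hN)
  unfold JJ trip
  exact (((hc b0 0).mul (((hc b1 1).mul (hn 2)).sub ((hc b1 2).mul (hn 1)))).sub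
    ((hc b0 1).mul (((hc b1 0).mul (hn 2)).sub ((hc b1 2).mul (hn 0))))).add
    ((hc b0 2).mul (((hc b1 0).mul (hn 1)).sub ((hc b1 1).mul (hn 0))))

lemma JJ_chain (hX : ContMDiff (𝓡∂ 2) 𝓘(ℝ, E3) 1 X) {i j p : M}
    (hi : p ∈ (extChartAt (𝓡∂ 2) i).source) (hj : p ∈ (extChartAt (𝓡∂ 2) j).source) :
    JJ X N i (extChartAt (𝓡∂ 2) i p) = (TC i j p).det * JJ X N j (extChartAt (𝓡∂ 2) j p) := by
  have h := DD_chain hX hi hj
  have hv : ∀ v : E2, DD X i (extChartAt (𝓡∂ 2) i p) v =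
      (TC i j p v) 0 • DD X j (extChartAt (𝓡∂ 2) j p) b0 +
      (TC i j p v) 1 • DD X j (extChartAt (𝓡∂ 2) j p) b1 := by
    intro v
    rw [h, ContinuousLinearMap.comp_apply]
    conv_lhs => rw [expand (TC i j p v)]
    simp
  unfold JJ
  rw [hv b0, hv b1, trip_smul_add, det_formula, (extChartAt (𝓡∂ 2) i).left_inv hi,
    (extChartAt (𝓡∂ 2) j).left_inv hj]

omit [IsManifold (𝓡∂ 2) ∞ M] in
lemma IsCMC.JJ_self_ne (h : IsCMC (𝓡∂ 2) H X N) (p : M) :
    JJ X N p (extChartAt (𝓡∂ 2) p p) ≠ 0 := by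
  have hX1 : ContMDiff (𝓡∂ 2) 𝓘(ℝ, E3) 1 X := h.c1
  intro h0
  unfold JJ at h0
  rw [DD_self hX1, (extChartAt (𝓡∂ 2) p).left_inv (mem_extChartAt_source p)] at h0
  let dX : E2 →L[ℝ] E3 := mfderiv (𝓡∂ 2) 𝓘(ℝ, E3) X p
  have hinj : Function.Injective dX := h.immersion p
  have h1 := trip_zero (a := dX b0) (b := dX b1) (h.unit p) (h.normal p b0) (h.normal p b1) h0
  have h2 : dX ((inner ℝ (dX b1) (dX b1) : ℝ) • b0) = dX ((inner ℝ (dX b0) (dX b1) : ℝ) • b1) := by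
    rw [map_smul, map_smul]; exact h1
  have h3 := hinj h2
  have h4 : (inner ℝ (dX b1) (dX b1) : ℝ) = 0 := by
    have := congrArg (fun v : E2 => v 0) h3
    simpa using this
  have h5 : dX b1 = 0 := inner_self_eq_zero.1 h4
  have h6 : b1 = (0 : E2) := hinj (by rw [h5, map_zero])
  have := congrArg (fun v : E2 => v 1) h6
  simp at this

lemma IsCMC.JJ_ne (h : IsCMC (𝓡∂ 2) H X N) {i p : M} (hi : p ∈ (extChartAt (𝓡∂ 2) i).source) :
    JJ X N i (extChartAt (𝓡∂ 2) i p) ≠ 0 := by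
  have hX1 : ContMDiff (𝓡∂ 2) 𝓘(ℝ, E3) 1 X := h.c1
  intro h0
  apply h.JJ_self_ne p
  rw [JJ_chain hX1 (mem_extChartAt_source p) hi, h0, mul_zero]

/-- sign of the chart `i` -/
noncomputable def sg (X N : M → E3) (i : M) : ℝ :=
  if 0 < JJ X N i (extChartAt (𝓡∂ 2) i i) then 1 else -1

/-- the part of the domain of the chart `i` on which the orientation is that at the centre -/
noncomputable def UU (X N : M → E3) (i : M) : Set M :=
  (extChartAt (𝓡∂ 2) i).source ∩ {p | 0 < sg X N i * JJ X N i (extChartAt (𝓡∂ 2) i p)}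

omit [IsManifold (𝓡∂ 2) ∞ M] in
lemma sg_eq (i : M) : sg X N i = 1 ∨ sg X N i = -1 := by
  unfold sg; split_ifs <;> simp

lemma IsCMC.isOpen_UU (h : IsCMC (𝓡∂ 2) H X N) (i : M) : IsOpen (UU X N i) := by
  have hX1 : ContMDiff (𝓡∂ 2) 𝓘(ℝ, E3) 1 X := h.c1
  have hc : ContinuousOn (fun p => sg X N i * JJ X N i (extChartAt (𝓡∂ 2) i p))
      (extChartAt (𝓡∂ 2) i).source :=
    continuousOn_const.mul ((continuousOn_JJ hX1 h.continuous_normal i).comp
      (continuousOn_extChartAt i) (fun p hp => (extChartAt (𝓡∂ 2) i).map_source hp))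
  exact hc.isOpen_inter_preimage (isOpen_extChartAt_source i) isOpen_Ioi

omit [IsManifold (𝓡∂ 2) ∞ M] in
lemma IsCMC.mem_UU (h : IsCMC (𝓡∂ 2) H X N) (i : M) : i ∈ UU X N i := by
  refine ⟨mem_extChartAt_source i, ?_⟩
  have := h.JJ_self_ne i
  change 0 < sg X N i * JJ X N i (extChartAt (𝓡∂ 2) i i)
  unfold sg
  split_ifs with h1
  · linarith
  · have : JJ X N i (extChartAt (𝓡∂ 2) i i) < 0 := lt_of_le_of_ne (not_lt.1 h1) this
    linarith

lemma IsCMC.orient (h : IsCMC (𝓡∂ 2) H X N) {i j p : M} (hi : p ∈ UU X N i) (hj : p ∈ UU X N j) :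
    0 < sg X N i * sg X N j * (TC i j p).det := by
  have hX1 : ContMDiff (𝓡∂ 2) 𝓘(ℝ, E3) 1 X := h.c1
  have h1 : 0 < sg X N i * JJ X N i (extChartAt (𝓡∂ 2) i p) := hi.2
  have h2 : 0 < sg X N j * JJ X N j (extChartAt (𝓡∂ 2) j p) := hj.2
  rw [JJ_chain hX1 hi.1 hj.1] at h1
  have h3 : sg X N j * sg X N j = 1 := by rcases sg_eq (X := X) (N := N) j with h | h <;> rw [h] <;> norm_num
  have h4 : sg X N i * ((TC i j p).det * JJ X N j (extChartAt (𝓡∂ 2) j p)) =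
      (sg X N i * sg X N j * (TC i j p).det) * (sg X N j * JJ X N j (extChartAt (𝓡∂ 2) j p)) := by
    linear_combination (-(sg X N i * (TC i j p).det * JJ X N j (extChartAt (𝓡∂ 2) j p))) * h3
  rw [h4] at h1
  exact (pos_iff_pos_of_mul_pos h1).2 h2

/-- smooth finite partition of unity subordinate to `UU` -/
lemma IsCMC.exists_pou [CompactSpace M] [T2Space M] (h : IsCMC (𝓡∂ 2) H X N) :
    ∃ (ρ : M → M → ℝ) (G : Finset M), (∀ i, ContMDiff (𝓡∂ 2) 𝓘(ℝ, ℝ) 1 (ρ i)) ∧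
      (∀ i p, 0 ≤ ρ i p) ∧ (∀ i, tsupport (ρ i) ⊆ UU X N i) ∧ ∀ p, ∑ i ∈ G, ρ i p = 1 := by
  obtain ⟨f, hf⟩ := SmoothPartitionOfUnity.exists_isSubordinate (𝓡∂ 2) (M := M) isClosed_univ
    (fun i => UU X N i) (fun i => h.isOpen_UU i)
    (fun p _ => mem_iUnion_of_mem p (h.mem_UU p))
  have hfin := f.locallyFinite.finite_nonempty_of_compact
  refine ⟨fun i => f i, hfin.toFinset, fun i => (f i).contMDiff.of_le (by simp), f.nonneg, hf, ?_⟩
  intro p
  rw [← f.sum_eq_one (mem_univ p)]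
  symm
  apply finsum_eq_sum_of_support_subset
  intro i hi
  simp only [Finite.coe_toFinset, mem_ofPred_eq]
  exact ⟨p, hi⟩

end

end H71CMC
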