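import Mathlib
import Pool.Agent.H71.CMC.Orient
import Pool.Agent.H71.CMC.Curve

open MeasureTheory Set Filter Topology
open scoped Manifold ContDiff

namespace H71CMC

variable {M : Type*} [TopologicalSpace M] [ChartedSpace (EuclideanHalfSpace 2) M]
variable [IsManifold (𝓡∂ 2) ∞ M]
variable {H : ℝ} {X N : M → E3} {c : ℝ → E3} {P : ℝ} {q : ℝ → M}

/-- the boundary points over the points of the curve -/
structure BPt (X : M → E3) (c : ℝ → E3) (q : ℝ → M) : Prop where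
  mem : ∀ θ, q θ ∈ (𝓡∂ 2).boundary M
  eq : ∀ θ, X (q θ) = c θ
  inj : InjOn X ((𝓡∂ 2).boundary M)
  maps : MapsTo X ((𝓡∂ 2).boundary M) (range c)

omit [IsManifold (𝓡∂ 2) ∞ M] in
lemma exists_BPt (hb : BijOn X ((𝓡∂ 2).boundary M) (range c)) : ∃ q : ℝ → M, BPt X c q := by
  have h : ∀ θ, ∃ p ∈ (𝓡∂ 2).boundary M, X p = c θ := fun θ => hb.surjOn (mem_range_self θ)
  choose q hq1 hq2 using h
  exact ⟨q, ⟨hq1, hq2, hb.injOn, hb.mapsTo⟩⟩

omit [IsManifold (𝓡∂ 2) ∞ M] in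
lemma BPt.unique (hq : BPt X c q) {p : M} {θ : ℝ} (hp : p ∈ (𝓡∂ 2).boundary M)
    (h : X p = c θ) : p = q θ :=
  hq.inj hp (hq.mem θ) (by rw [h, hq.eq])

lemma BPt.continuous [CompactSpace M] (hq : BPt X c q) (hX : Continuous X)
    (hc : Continuous c) : Continuous q := by
  rw [continuous_iff_continuousAt]
  intro θ
  have hcl : IsClosed ((𝓡∂ 2).boundary M) := ModelWithCorners.isClosed_boundary (n := ∞) (by simp)
  apply (hcl.isCompact).tendsto_nhds_of_unique_mapClusterPt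
  · exact Filter.Eventually.of_forall hq.mem
  · intro y hy hcl
    apply hq.unique hy
    have h1 : NeBot (𝓝 (X y) ⊓ map (X ∘ q) (𝓝 θ)) := hcl.continuousAt_comp hX.continuousAt
    have h2 : Tendsto (X ∘ q) (𝓝 θ) (𝓝 (c θ)) := by
      have : X ∘ q = c := by ext1 t; exact hq.eq t
      rw [this]; exact hc.tendsto θ
    exact eq_of_nhds_neBot (h1.mono (inf_le_inf_left _ h2))

lemma BPt.coord (hq : BPt X c q) {i : M} {θ : ℝ} (hi : q θ ∈ (extChartAt (𝓡∂ 2) i).source) :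
    extChartAt (𝓡∂ 2) i (q θ) = pt 0 ((extChartAt (𝓡∂ 2) i (q θ)) 1) := by
  have := (mem_boundary_iff hi).1 (hq.mem θ)
  ext k; fin_cases k
  · simpa using this
  · simp

/-- the boundary parameters in the chart `i` -/
def RR (i : M) : Set ℝ := {t | pt 0 t ∈ (extChartAt (𝓡∂ 2) i).target}

/-- the boundary curve in the chart `i` -/
noncomputable def ee (X : M → E3) (i : M) (t : ℝ) : E3 := X ((extChartAt (𝓡∂ 2) i).symm (pt 0 t))

lemma pt_mem_HP (t : ℝ) : pt 0 t ∈ HP := by simp [HP]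

lemma hasDerivAt_pt (t : ℝ) : HasDerivAt (fun t => pt 0 t) b1 t := by
  have : (fun t : ℝ => pt 0 t) = fun t => t • b1 := by
    ext t k; fin_cases k <;> simp
  rw [this]
  simpa using (hasDerivAt_id t).smul_const b1

lemma continuous_pt : Continuous (fun t => pt 0 t) :=
  continuous_iff_continuousAt.2 fun t => (hasDerivAt_pt t).continuousAt

omit [IsManifold (𝓡∂ 2) ∞ M] in
lemma isOpen_RR (i : M) : IsOpen (RR i) := by
  rw [isOpen_iff_mem_nhds]
  intro t ht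
  have h1 := target_mem_nhdsWithin i ht
  have h2 : Tendsto (fun t => pt 0 t) (𝓝 t) (𝓝[HP] (pt 0 t)) :=
    tendsto_nhdsWithin_iff.2 ⟨continuous_pt.tendsto t, Filter.Eventually.of_forall pt_mem_HP⟩
  exact h2 h1

lemma hasDerivAt_ee (hX : ContMDiff (𝓡∂ 2) 𝓘(ℝ, E3) 1 X) {i : M} {t : ℝ} (ht : t ∈ RR i) :
    HasDerivAt (ee X i) (DD X i (pt 0 t) b1) t := by
  have h1 := hasFDerivWithinAt_rep i hX ht
  have h2 := h1.comp_hasDerivWithinAt (s := univ) t ((hasDerivAt_pt t).hasDerivWithinAt)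
    (fun s _ => pt_mem_HP s)
  exact hasDerivWithinAt_univ.1 h2

lemma boundary_of_RR {i : M} {t : ℝ} (ht : t ∈ RR i) :
    (extChartAt (𝓡∂ 2) i).symm (pt 0 t) ∈ (𝓡∂ 2).boundary M := by
  rw [mem_boundary_iff ((extChartAt (𝓡∂ 2) i).map_target ht), (extChartAt (𝓡∂ 2) i).right_inv ht]
  simp

lemma BPt.ee_mem (hq : BPt X c q) {i : M} {t : ℝ} (ht : t ∈ RR i) : ee X i t ∈ range c :=
  hq.maps (boundary_of_RR ht)

lemma BPt.ee_inj (hq : BPt X c q) {i : M} : InjOn (ee X i) (RR i) := by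
  intro s hs t ht h
  have h1 := hq.inj (boundary_of_RR hs) (boundary_of_RR ht) h
  have h2 := (extChartAt (𝓡∂ 2) i).symm.injOn hs ht h1
  have := congrArg (fun v : E2 => v 1) h2
  simpa using this

/-- the velocity of the boundary curve in a chart is parallel to that of `c` -/
lemma BPt.parallel (hq : BPt X c q) (hX : ContMDiff (𝓡∂ 2) 𝓘(ℝ, E3) 1 X) (hc : SCurve c P)
    {i : M} {t θ s : ℝ} (ht : t ∈ RR i) (h : ee X i t = c θ) (hθ : θ ∈ Ioo s (s + P)) :
    ∃ m : ℝ, DD X i (pt 0 t) b1 = m • deriv c θ ∧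
      HasDerivAt (fun t => lift c P s (ee X i t)) m t :=
  hc.lift_deriv hθ (hasDerivAt_ee hX ht)
    (Filter.mem_of_superset ((isOpen_RR i).mem_nhds ht) (fun _ ht => hq.ee_mem ht)) h

end H71CMC
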