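import Mathlib
import Pool.Agent.H71.CMC.Boundary

open MeasureTheory Set Filter Topology
open scoped Manifold ContDiff

namespace H71CMC

variable {M : Type*} [TopologicalSpace M] [ChartedSpace (EuclideanHalfSpace 2) M]
variable [IsManifold (𝓡∂ 2) ∞ M]
variable {H : ℝ} {X N : M → E3} {c : ℝ → E3} {P : ℝ} {q : ℝ → M}

/-- `trip` of the inward coordinate vector, the velocity of `c`, and `N` -/
noncomputable def kap (X N : M → E3) (c : ℝ → E3) (q : ℝ → M) (i : M) (θ : ℝ) : ℝ :=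
  trip (DD X i (extChartAt (𝓡∂ 2) i (q θ)) b0) (deriv c θ) (N (q θ))

lemma BPt.exists_m (hq : BPt X c q) (hX : ContMDiff (𝓡∂ 2) 𝓘(ℝ, E3) 1 X) (hc : SCurve c P)
    {i : M} {θ : ℝ} (hi : q θ ∈ (extChartAt (𝓡∂ 2) i).source) :
    ∃ m : ℝ, DD X i (extChartAt (𝓡∂ 2) i (q θ)) b1 = m • deriv c θ := by
  set t := (extChartAt (𝓡∂ 2) i (q θ)) 1 with ht
  have h1 : extChartAt (𝓡∂ 2) i (q θ) = pt 0 t := hq.coord hi
  have h2 : t ∈ RR i := by
    change pt 0 t ∈ (extChartAt (𝓡∂ 2) i).target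
    rw [← h1]
    exact (extChartAt (𝓡∂ 2) i).map_source hi
  have h3 : ee X i t = c θ := by
    unfold ee
    rw [← h1, (extChartAt (𝓡∂ 2) i).left_inv hi, hq.eq]
  have hP := hc.pos
  obtain ⟨m, hm, -⟩ := hq.parallel hX hc h2 h3 (s := θ - P / 2) ⟨by linarith, by linarith⟩
  exact ⟨m, by rw [h1, hm]⟩

lemma trip_smul_mid (a b n : E3) (m : ℝ) : trip a (m • b) n = m * trip a b n := by
  simp [trip]; ring

lemma trip_self (b n : E3) (m : ℝ) : trip (m • b) b n = 0 := by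
  simp [trip]; ring

lemma trip_add_smul (a b d n : E3) (s t : ℝ) :
    trip (s • a + t • b) d n = s * trip a d n + t * trip b d n := by
  simp [trip]; ring

omit [IsManifold (𝓡∂ 2) ∞ M] in
lemma BPt.JJ_eq {i : M} {θ m : ℝ} (hi : q θ ∈ (extChartAt (𝓡∂ 2) i).source)
    (hm : DD X i (extChartAt (𝓡∂ 2) i (q θ)) b1 = m • deriv c θ) :
    JJ X N i (extChartAt (𝓡∂ 2) i (q θ)) = m * kap X N c q i θ := by
  unfold JJ kap
  rw [hm, trip_smul_mid, (extChartAt (𝓡∂ 2) i).left_inv hi]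

lemma BPt.kap_ne (hq : BPt X c q) (h : IsCMC (𝓡∂ 2) H X N) (hc : SCurve c P)
    {i : M} {θ : ℝ} (hi : q θ ∈ (extChartAt (𝓡∂ 2) i).source) : kap X N c q i θ ≠ 0 := by
  have hX1 : ContMDiff (𝓡∂ 2) 𝓘(ℝ, E3) 1 X := h.c1
  obtain ⟨m, hm⟩ := hq.exists_m hX1 hc hi
  intro h0
  apply h.JJ_ne hi
  rw [BPt.JJ_eq hi hm, h0, mul_zero]

/-- the transition map sends the inward vector to a vector with nonnegative first coordinate -/
lemma TC_nonneg {i j p : M} (hi : p ∈ (extChartAt (𝓡∂ 2) i).source)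
    (hj : p ∈ (extChartAt (𝓡∂ 2) j).source) (hb : p ∈ (𝓡∂ 2).boundary M) :
    0 ≤ (TC i j p b0) 0 := by
  have h1 : HasFDerivWithinAt ((extChartAt (𝓡∂ 2) j) ∘ (extChartAt (𝓡∂ 2) i).symm) (TC i j p)
      HP (extChartAt (𝓡∂ 2) i p) := by
    rw [HP_eq]; exact hasFDerivWithinAt_tangentCoordChange ⟨hi, hj⟩
  have h2 : HasFDerivWithinAt (fun y => (extChartAt (𝓡∂ 2) j ((extChartAt (𝓡∂ 2) i).symm y)) 0)
      ((EuclideanSpace.proj 0 : E2 →L[ℝ] ℝ).comp (TC i j p)) HP (extChartAt (𝓡∂ 2) i p) :=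
    ((EuclideanSpace.proj 0 : E2 →L[ℝ] ℝ).hasFDerivAt).comp_hasFDerivWithinAt _ h1
  have hmin : IsLocalMinOn (fun y => (extChartAt (𝓡∂ 2) j ((extChartAt (𝓡∂ 2) i).symm y)) 0) HP
      (extChartAt (𝓡∂ 2) i p) := by
    apply Filter.Eventually.of_forall
    intro y
    simp only [(extChartAt (𝓡∂ 2) i).left_inv hi]
    rw [(mem_boundary_iff hj).1 hb]
    have : extChartAt (𝓡∂ 2) j ((extChartAt (𝓡∂ 2) i).symm y) ∈ HP := by
      rw [HP_eq]
      exact ⟨_, rfl⟩
    exact this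
  have hmem : b0 ∈ posTangentConeAt HP (extChartAt (𝓡∂ 2) i p) := by
    apply mem_posTangentConeAt_of_segment_subset
    have hconv : Convex ℝ HP := EuclideanHalfSpace.convex
    apply hconv.segment_subset
    · exact target_subset_HP i ((extChartAt (𝓡∂ 2) i).map_source hi)
    · have h0 : (extChartAt (𝓡∂ 2) i p) 0 = 0 := (mem_boundary_iff hi).1 hb
      change 0 ≤ (extChartAt (𝓡∂ 2) i p + b0) 0
      rw [PiLp.add_apply, h0]
      simp
  exact hmin.hasFDerivWithinAt_nonneg h2 hmem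

lemma BPt.kap_chain (hq : BPt X c q) (h : IsCMC (𝓡∂ 2) H X N) (hc : SCurve c P)
    {i j : M} {θ : ℝ} (hi : q θ ∈ (extChartAt (𝓡∂ 2) i).source)
    (hj : q θ ∈ (extChartAt (𝓡∂ 2) j).source) :
    kap X N c q i θ = (TC i j (q θ) b0) 0 * kap X N c q j θ := by
  have hX1 : ContMDiff (𝓡∂ 2) 𝓘(ℝ, E3) 1 X := h.c1
  obtain ⟨m, hm⟩ := hq.exists_m hX1 hc hj
  unfold kap
  have h1 : DD X i (extChartAt (𝓡∂ 2) i (q θ)) b0 =
      (TC i j (q θ) b0) 0 • DD X j (extChartAt (𝓡∂ 2) j (q θ)) b0 +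
      (TC i j (q θ) b0) 1 • DD X j (extChartAt (𝓡∂ 2) j (q θ)) b1 := by
    rw [DD_chain hX1 hi hj, ContinuousLinearMap.comp_apply]
    conv_lhs => rw [expand (TC i j (q θ) b0)]
    simp
  rw [h1, trip_add_smul, hm, trip_self, mul_zero, add_zero]

lemma BPt.kap_pos_iff (hq : BPt X c q) (h : IsCMC (𝓡∂ 2) H X N) (hc : SCurve c P)
    {i j : M} {θ : ℝ} (hi : q θ ∈ (extChartAt (𝓡∂ 2) i).source)
    (hj : q θ ∈ (extChartAt (𝓡∂ 2) j).source) :
    0 < kap X N c q i θ ↔ 0 < kap X N c q j θ := by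
  have h1 := hq.kap_chain h hc hi hj
  have h2 := TC_nonneg hi hj (hq.mem θ)
  have h3 := hq.kap_ne h hc hi
  have h4 : 0 < (TC i j (q θ) b0) 0 := by
    apply lt_of_le_of_ne h2
    intro h0
    apply h3
    rw [h1, ← h0, zero_mul]
  rw [h1]
  exact mul_pos_iff_of_pos_left h4

lemma BPt.kap_continuousOn (hq : BPt X c q) [CompactSpace M] (h : IsCMC (𝓡∂ 2) H X N) (hc : SCurve c P)
    (i : M) : ContinuousOn (kap X N c q i) (q ⁻¹' (extChartAt (𝓡∂ 2) i).source) := by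
  have hX1 : ContMDiff (𝓡∂ 2) 𝓘(ℝ, E3) 1 X := h.c1
  have hqc : Continuous q := hq.continuous hX1.continuous hc.smooth.continuous
  have h1 : ContinuousOn (fun θ => DD X i (extChartAt (𝓡∂ 2) i (q θ)) b0)
      (q ⁻¹' (extChartAt (𝓡∂ 2) i).source) := by
    have h2 := (continuousOn_DD i hX1).clm_apply (continuousOn_const (c := b0))
    have h3 : ContinuousOn (fun θ => extChartAt (𝓡∂ 2) i (q θ))
        (q ⁻¹' (extChartAt (𝓡∂ 2) i).source) :=
      (continuousOn_extChartAt i).comp hqc.continuousOn (fun θ hθ => hθ)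
    exact h2.comp h3 (fun θ hθ => (extChartAt (𝓡∂ 2) i).map_source hθ)
  have hd : Continuous (deriv c) := hc.smooth.continuous_deriv (by norm_num)
  have hn : Continuous (fun θ => N (q θ)) := h.continuous_normal.comp hqc
  have hk : ∀ {S : Set ℝ} {f : ℝ → E3}, ContinuousOn f S → ∀ k : Fin 3,
      ContinuousOn (fun x => (f x) k) S := fun hf k =>
    (EuclideanSpace.proj k : E3 →L[ℝ] ℝ).continuous.comp_continuousOn hf
  have a := fun k => hk h1 k
  have b := fun k => hk (hd.continuousOn (s := q ⁻¹' (extChartAt (𝓡∂ 2) i).source)) k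
  have n := fun k => hk (hn.continuousOn (s := q ⁻¹' (extChartAt (𝓡∂ 2) i).source)) k
  unfold kap trip
  exact (((a 0).mul (((b 1).mul (n 2)).sub ((b 2).mul (n 1)))).sub
    ((a 1).mul (((b 0).mul (n 2)).sub ((b 2).mul (n 0))))).add
    ((a 2).mul (((b 0).mul (n 1)).sub ((b 1).mul (n 0))))

/-- the sign of `kap` is the same at all points and in all charts -/
lemma BPt.exists_sign (hq : BPt X c q) [CompactSpace M] (h : IsCMC (𝓡∂ 2) H X N) (hc : SCurve c P) :
    ∃ ε : ℝ, (ε = 1 ∨ ε = -1) ∧ ∀ i θ, q θ ∈ (extChartAt (𝓡∂ 2) i).source →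
      0 < ε * kap X N c q i θ := by
  have hX1 : ContMDiff (𝓡∂ 2) 𝓘(ℝ, E3) 1 X := h.c1
  have hqc : Continuous q := hq.continuous hX1.continuous hc.smooth.continuous
  set S : Set ℝ := {θ | 0 < kap X N c q (q θ) θ} with hS
  have hopen : ∀ i, IsOpen (q ⁻¹' (extChartAt (𝓡∂ 2) i).source) := fun i =>
    (isOpen_extChartAt_source i).preimage hqc
  have hS1 : IsOpen S := by
    rw [isOpen_iff_mem_nhds]
    intro θ hθ
    have hmem : q θ ∈ (extChartAt (𝓡∂ 2) (q θ)).source := mem_extChartAt_source _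
    have hn := (hopen (q θ)).mem_nhds hmem
    have hca : ContinuousAt (kap X N c q (q θ)) θ :=
      (hq.kap_continuousOn h hc (q θ)).continuousAt hn
    filter_upwards [hn, hca.eventually (lt_mem_nhds (show (0 : ℝ) < kap X N c q (q θ) θ from hθ))] with η h1 h2
    exact (hq.kap_pos_iff h hc h1 (mem_extChartAt_source _)).1 h2
  have hS2 : IsOpen Sᶜ := by
    rw [isOpen_iff_mem_nhds]
    intro θ hθ
    have hmem : q θ ∈ (extChartAt (𝓡∂ 2) (q θ)).source := mem_extChartAt_source _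
    have hn := (hopen (q θ)).mem_nhds hmem
    have hca : ContinuousAt (kap X N c q (q θ)) θ :=
      (hq.kap_continuousOn h hc (q θ)).continuousAt hn
    have hneg : kap X N c q (q θ) θ < 0 :=
      lt_of_le_of_ne (not_lt.1 hθ) (hq.kap_ne h hc hmem)
    filter_upwards [hn, hca.eventually (gt_mem_nhds hneg)] with η h1 h2 h3
    have := (hq.kap_pos_iff h hc h1 (mem_extChartAt_source _)).2 h3
    linarith
  have hclopen : IsClopen S := ⟨isOpen_compl_iff.1 hS2, hS1⟩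
  rcases isClopen_iff.1 hclopen with h0 | h1
  · refine ⟨-1, Or.inr rfl, ?_⟩
    intro i θ hi
    have h2 : ¬ 0 < kap X N c q i θ := by
      intro h3
      have : θ ∈ S := (hq.kap_pos_iff h hc hi (mem_extChartAt_source _)).1 h3
      rw [h0] at this
      exact this
    have h3 : kap X N c q i θ < 0 := lt_of_le_of_ne (not_lt.1 h2) (hq.kap_ne h hc hi)
    linarith
  · refine ⟨1, Or.inl rfl, ?_⟩
    intro i θ hi
    have h2 : θ ∈ S := by rw [h1]; trivial
    have := (hq.kap_pos_iff h hc hi (mem_extChartAt_source _)).2 h2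
    linarith

omit [IsManifold (𝓡∂ 2) ∞ M] in
/-- consistency of the signs of the charts along the boundary -/
lemma BPt.sign_m {ε : ℝ} (hε : ε = 1 ∨ ε = -1)
    (hk : ∀ i θ, q θ ∈ (extChartAt (𝓡∂ 2) i).source → 0 < ε * kap X N c q i θ) {i : M} {θ m : ℝ}
    (hi : q θ ∈ UU X N i)
    (hm : DD X i (extChartAt (𝓡∂ 2) i (q θ)) b1 = m • deriv c θ) :
    sg X N i * m = ε * |m| := by
  have h1 : 0 < sg X N i * JJ X N i (extChartAt (𝓡∂ 2) i (q θ)) := hi.2
  rw [BPt.JJ_eq hi.1 hm] at h1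
  have h2 := hk i θ hi.1
  have h3 : 0 < (sg X N i * m * ε) * (ε * kap X N c q i θ) := by
    have hee : ε * ε = 1 := by rcases hε with h | h <;> rw [h] <;> norm_num
    have : (sg X N i * m * ε) * (ε * kap X N c q i θ) =
        (ε * ε) * (sg X N i * (m * kap X N c q i θ)) := by ring
    rw [this, hee, one_mul]; exact h1
  have h4 : 0 < sg X N i * m * ε := (pos_iff_pos_of_mul_pos h3).2 h2
  rcases sg_eq (X := X) (N := N) i with h5 | h5 <;> rcases hε with h6 | h6 <;> rw [h5, h6] at h4 ⊢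
  · rw [abs_of_pos (by linarith)]
  · rw [abs_of_neg (by linarith)]; ring
  · rw [abs_of_neg (by linarith)]; ring
  · rw [abs_of_pos (by linarith)]

end H71CMC
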