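import Mathlib
import Pool.Agent.H71.CMC.Sign

open MeasureTheory Set Filter Topology
open scoped Manifold ContDiff

namespace H71CMC

variable {M : Type*} [TopologicalSpace M] [ChartedSpace (EuclideanHalfSpace 2) M]
variable [IsManifold (𝓡∂ 2) ∞ M]
variable {H : ℝ} {X N : M → E3} {c : ℝ → E3} {P : ℝ} {q : ℝ → M}

/-- the part of `RR i` away from the base point -/
def SS (X : M → E3) (c : ℝ → E3) (i : M) : Set ℝ := {t | t ∈ RR i ∧ ee X i t ≠ c 0}

/-- the part of `(0, P)` covered by the chart `i` -/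
def BB (q : ℝ → M) (P : ℝ) (i : M) : Set ℝ :=
  {θ | θ ∈ Ioo 0 P ∧ q θ ∈ (extChartAt (𝓡∂ 2) i).source}

lemma isOpen_SS (hX : ContMDiff (𝓡∂ 2) 𝓘(ℝ, E3) 1 X) (i : M) : IsOpen (SS X c i) := by
  have hc : ContinuousOn (ee X i) (RR i) := fun t ht =>
    (hasDerivAt_ee hX ht).continuousAt.continuousWithinAt
  exact hc.isOpen_inter_preimage (isOpen_RR i) isOpen_compl_singleton

lemma BPt.lift_mem_Ioo (hq : BPt X c q) (hc : SCurve c P) {i : M} {t : ℝ} (ht : t ∈ SS X c i) :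
    lift c P 0 (ee X i t) ∈ Ioo 0 (0 + P) ∧ c (lift c P 0 (ee X i t)) = ee X i t := by
  obtain ⟨h1, h2⟩ := hc.lift_mem (s := 0) (hq.ee_mem ht.1)
  refine ⟨⟨lt_of_le_of_ne h1.1 ?_, h1.2⟩, h2⟩
  intro h
  rw [← h] at h2
  exact ht.2 h2.symm

lemma BPt.psi_eq (hq : BPt X c q) (hc : SCurve c P) {i : M} {t : ℝ} (ht : t ∈ SS X c i) :
    (extChartAt (𝓡∂ 2) i).symm (pt 0 t) = q (lift c P 0 (ee X i t)) :=
  hq.unique (boundary_of_RR ht.1) (hq.lift_mem_Ioo hc ht).2.symm

lemma BPt.lift_image (hq : BPt X c q) (hc : SCurve c P) (i : M) :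
    (fun t => lift c P 0 (ee X i t)) '' SS X c i = BB q P i := by
  apply Subset.antisymm
  · rintro _ ⟨t, ht, rfl⟩
    refine ⟨?_, ?_⟩
    · have := (hq.lift_mem_Ioo hc ht).1
      rwa [zero_add] at this
    · change q (lift c P 0 (ee X i t)) ∈ (extChartAt (𝓡∂ 2) i).source
      rw [← hq.psi_eq hc ht]
      exact (extChartAt (𝓡∂ 2) i).map_target ht.1
  · rintro θ ⟨h1, h2⟩
    set t := (extChartAt (𝓡∂ 2) i (q θ)) 1 with ht
    have h3 : extChartAt (𝓡∂ 2) i (q θ) = pt 0 t := hq.coord h2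
    have h4 : t ∈ RR i := by
      change pt 0 t ∈ (extChartAt (𝓡∂ 2) i).target
      rw [← h3]
      exact (extChartAt (𝓡∂ 2) i).map_source h2
    have h5 : ee X i t = c θ := by
      unfold ee
      rw [← h3, (extChartAt (𝓡∂ 2) i).left_inv h2, hq.eq]
    refine ⟨t, ⟨h4, ?_⟩, ?_⟩
    · rw [h5]
      intro h6
      have := hc.eq_of_close h6 (by rw [sub_zero, abs_of_pos h1.1]; exact h1.2)
      exact h1.1.ne' this
    · change lift c P 0 (ee X i t) = θ
      rw [h5]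
      exact hc.lift_apply ⟨h1.1.le, by linarith [h1.2]⟩

lemma BPt.lift_injOn (hq : BPt X c q) (hc : SCurve c P) (i : M) :
    InjOn (fun t => lift c P 0 (ee X i t)) (SS X c i) := by
  intro s hs t ht h
  apply hq.ee_inj hs.1 ht.1
  rw [← (hq.lift_mem_Ioo hc hs).2, ← (hq.lift_mem_Ioo hc ht).2]
  exact congrArg c h

lemma BPt.chart_integral (hq : BPt X c q) (h : IsCMC (𝓡∂ 2) H X N) (hc : SCurve c P) {ε : ℝ}
    (hε : ε = 1 ∨ ε = -1)
    (hk : ∀ i θ, q θ ∈ (extChartAt (𝓡∂ 2) i).source → 0 < ε * kap X N c q i θ)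
    {A : M → E3} {ρ : M → ℝ} {i : M} (hsub : tsupport ρ ⊆ UU X N i) :
    sg X N i * ∫ t, (extChartAt (𝓡∂ 2) i).target.indicator
        (fun x => ρ ((extChartAt (𝓡∂ 2) i).symm x) * om A X i x b1) (pt 0 t) =
      ε * ∫ θ in Ioo 0 P, ρ (q θ) * inner ℝ (A (q θ)) (deriv c θ) := by
  have hX1 : ContMDiff (𝓡∂ 2) 𝓘(ℝ, E3) 1 X := h.c1
  set F : E2 → ℝ := fun x => ρ ((extChartAt (𝓡∂ 2) i).symm x) * om A X i x b1 with hF
  set g : ℝ → ℝ := fun θ => ρ (q θ) * inner ℝ (A (q θ)) (deriv c θ) with hg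
  have e1 : ∫ t, (extChartAt (𝓡∂ 2) i).target.indicator F (pt 0 t) = ∫ t in RR i, F (pt 0 t) := by
    rw [← integral_indicator (isOpen_RR i).measurableSet]
    rfl
  have e2 : ∫ t in RR i, F (pt 0 t) = ∫ t in SS X c i, F (pt 0 t) := by
    apply setIntegral_eq_of_subset_of_ae_sdiff_eq_zero (isOpen_RR i).nullMeasurableSet
      (fun t ht => ht.1)
    have hsubs : (RR i \ SS X c i).Subsingleton := by
      intro s hs t ht
      have h1 : ee X i s = c 0 := by
        by_contra hne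
        exact hs.2 ⟨hs.1, hne⟩
      have h2 : ee X i t = c 0 := by
        by_contra hne
        exact ht.2 ⟨ht.1, hne⟩
      exact hq.ee_inj hs.1 ht.1 (h1.trans h2.symm)
    have hnull : volume (RR i \ SS X c i) = 0 := hsubs.measure_zero volume
    filter_upwards [measure_eq_zero_iff_ae_notMem.1 hnull] with t ht h2
    exact absurd h2 ht
  have e3 : ∫ θ in Ioo 0 P, g θ = ∫ θ in BB q P i, g θ := by
    apply setIntegral_eq_of_subset_of_forall_sdiff_eq_zero measurableSet_Ioo (fun θ hθ => hθ.1)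
    intro θ hθ
    have : q θ ∉ tsupport ρ := fun h1 => hθ.2 ⟨hθ.1, (hsub h1).1⟩
    simp only [hg, image_eq_zero_of_notMem_tsupport this, zero_mul]
  have hder : ∀ t ∈ SS X c i, DD X i (pt 0 t) b1 =
      (deriv (fun t => lift c P 0 (ee X i t)) t) • deriv c (lift c P 0 (ee X i t)) ∧
      HasDerivAt (fun t => lift c P 0 (ee X i t)) (deriv (fun t => lift c P 0 (ee X i t)) t) t := by
    intro t ht
    obtain ⟨h1, h2⟩ := hq.lift_mem_Ioo hc ht
    obtain ⟨m, hm1, hm2⟩ := hq.parallel hX1 hc ht.1 h2.symm h1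
    rw [hm2.deriv]
    exact ⟨hm1, hm2⟩
  have e4 : ∫ θ in BB q P i, g θ =
      ∫ t in SS X c i, |deriv (fun t => lift c P 0 (ee X i t)) t| *
        g (lift c P 0 (ee X i t)) := by
    rw [← hq.lift_image hc i]
    rw [integral_image_eq_integral_abs_deriv_smul (isOpen_SS hX1 i).measurableSet
      (fun t ht => (hder t ht).2.hasDerivWithinAt) (hq.lift_injOn hc i) g]
    simp only [smul_eq_mul]
  rw [e1, e2, e3, e4, ← integral_const_mul, ← integral_const_mul]
  apply setIntegral_congr_fun (isOpen_SS hX1 i).measurableSet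
  intro t ht
  obtain ⟨hd1, -⟩ := hder t ht
  have hp := hq.psi_eq hc ht
  set θ := lift c P 0 (ee X i t) with hθ
  set m := deriv (fun t => lift c P 0 (ee X i t)) t with hm
  have hpt : pt 0 t = extChartAt (𝓡∂ 2) i (q θ) := by
    rw [← hp, (extChartAt (𝓡∂ 2) i).right_inv ht.1]
  have hFt : F (pt 0 t) = ρ (q θ) * (m * inner ℝ (A (q θ)) (deriv c θ)) := by
    simp only [hF, om_apply]
    rw [hp, hd1, inner_smul_right]
  simp only []
  rw [hFt]
  simp only [hg]
  by_cases hU : q θ ∈ UU X N i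
  · have h1 := BPt.sign_m hε hk hU (m := m) (by rw [← hpt]; exact hd1)
    linear_combination (ρ (q θ) * inner ℝ (A (q θ)) (deriv c θ)) * h1
  · have : ρ (q θ) = 0 := image_eq_zero_of_notMem_tsupport fun h1 => hU (hsub h1)
    rw [this]; ring

theorem BPt.stokes [CompactSpace M] [T2Space M] (hq : BPt X c q) (h : IsCMC (𝓡∂ 2) H X N)
    (hc : SCurve c P) {A : M → E3} (hA : Continuous A)
    (hAd : ∀ i, ∀ x ∈ (extChartAt (𝓡∂ 2) i).target, 0 < x 0 →
      HasFDerivAt (A ∘ (extChartAt (𝓡∂ 2) i).symm) (DD A i x) x)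
    (hcl : ∀ i, ∀ x ∈ (extChartAt (𝓡∂ 2) i).target, 0 < x 0 →
      inner ℝ (DD A i x b0) (DD X i x b1) = inner ℝ (DD A i x b1) (DD X i x b0)) :
    ∫ θ in Ioo 0 P, inner ℝ (A (q θ)) (deriv c θ) = 0 := by
  have hX1 : ContMDiff (𝓡∂ 2) 𝓘(ℝ, E3) 1 X := h.c1
  have hqc : Continuous q := hq.continuous hX1.continuous hc.smooth.continuous
  obtain ⟨ρ, G, hρ, -, hsub, hsum⟩ := h.exists_pou
  obtain ⟨ε, hε, hk⟩ := hq.exists_sign h hc
  have h1 := global_stokes (U := UU X N) (s := sg X N) hρ hA hAd hX1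
    (fun i x hx hx0 => contDiffAt_rep_at (h.c2 _ (mem_interior_of_pos hx hx0)) hx hx0) hcl (fun i => inter_subset_left) hsub
    (fun i => sg_eq i) (fun i j p hi hj => h.orient hi hj) G hsum
  rw [Finset.sum_congr rfl fun i _ => hq.chart_integral h hc hε hk (hsub i), ← Finset.mul_sum,
    ← integral_finsetSum] at h1
  · have h2 : ∀ θ, ∑ i ∈ G, ρ i (q θ) * inner ℝ (A (q θ)) (deriv c θ) =
        inner ℝ (A (q θ)) (deriv c θ) := by
      intro θ
      rw [← Finset.sum_mul, hsum, one_mul]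
    simp only [h2] at h1
    rcases hε with h3 | h3
    · rw [h3, one_mul] at h1; exact h1
    · rw [h3] at h1; linarith
  · intro i _
    have hd : Continuous (deriv c) := hc.smooth.continuous_deriv (by norm_num)
    have hcont : Continuous (fun θ => ρ i (q θ) * inner ℝ (A (q θ)) (deriv c θ)) :=
      ((hρ i).continuous.comp hqc).mul ((hA.comp hqc).inner hd)
    exact (hcont.integrableOn_Icc (a := 0) (b := P)).mono_set Ioo_subset_Icc_self

end H71CMC
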