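import Mathlib
import Pool.Agent.H71.CMC.BStokes

open MeasureTheory Set Filter Topology
open scoped Manifold ContDiff

namespace H71CMC

lemma emb_eq (x : E2) : emb x = x 0 • (!₂[1, 0, 0] : E3) + x 1 • (!₂[0, 1, 0] : E3) := by
  ext k; fin_cases k <;> simp [emb]

lemma emb_inj : Function.Injective emb := by
  intro x y h
  have h0 := congrArg (fun v : E3 => v 0) h
  have h1 := congrArg (fun v : E3 => v 1) h
  ext k; fin_cases k
  · simpa [emb] using h0
  · simpa [emb] using h1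

lemma hasDerivAt_emb {γ : ℝ → E2} {γ' : E2} {t : ℝ} (h : HasDerivAt γ γ' t) :
    HasDerivAt (fun t => emb (γ t)) (emb γ') t := by
  have hk : ∀ k : Fin 2, HasDerivAt (fun t => (γ t) k) (γ' k) t := fun k =>
    (EuclideanSpace.proj k : E2 →L[ℝ] ℝ).hasFDerivAt.comp_hasDerivAt t h
  have h1 := ((hk 0).smul_const (!₂[1, 0, 0] : E3)).add ((hk 1).smul_const (!₂[0, 1, 0] : E3))
  rw [emb_eq γ']
  exact h1.congr_of_eventuallyEq (Filter.Eventually.of_forall fun t => emb_eq _)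

lemma SCurve.emb {γ : ℝ → E2} {P : ℝ} (hγ : SCurve γ P) : SCurve (fun t => emb (γ t)) P where
  pos := hγ.pos
  smooth := by
    have h1 : ContDiff ℝ 1 (fun t => (γ t) 0 • (!₂[1, 0, 0] : E3) + (γ t) 1 • (!₂[0, 1, 0] : E3)) := by
      have hk : ∀ k : Fin 2, ContDiff ℝ 1 (fun t => (γ t) k) := fun k =>
        (EuclideanSpace.proj k : E2 →L[ℝ] ℝ).contDiff.comp hγ.smooth
      exact ((hk 0).smul contDiff_const).add ((hk 1).smul contDiff_const)
    have h2 : (fun t => H71CMC.emb (γ t)) = (fun t => (γ t) 0 • (!₂[1, 0, 0] : E3) + (γ t) 1 • (!₂[0, 1, 0] : E3)) := by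
      ext1 t; exact emb_eq _
    rw [h2]; exact h1
  period := fun t => by rw [hγ.period]
  inj := fun s t h => hγ.inj s t (emb_inj h)
  reg := fun t h => by
    have hd := (hγ.smooth.differentiable (by norm_num) t).hasDerivAt
    rw [(hasDerivAt_emb hd).deriv] at h
    apply hγ.reg t
    apply emb_inj
    rw [h]
    ext k; fin_cases k <;> simp [H71CMC.emb]

variable {M : Type*} [TopologicalSpace M] [ChartedSpace (EuclideanHalfSpace 2) M]
variable [IsManifold (𝓡∂ 2) ∞ M] [CompactSpace M] [T2Space M]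
variable {H : ℝ} {X N : M → E3}

theorem flux_identity {γ : ℝ → E2} {P : ℝ} (hγ : SCurve γ P) (h : IsCMC (𝓡∂ 2) H X N)
    (hb : BijOn X ((𝓡∂ 2).boundary M) (range fun t => emb (γ t))) :
    ∃ n : ℝ → E3, Continuous n ∧ (∀ θ, ‖n θ‖ = 1) ∧ ∀ α β : ℝ,
      2 * H * ∫ θ in Ioo 0 P, (α * (γ θ) 0 - β * (γ θ) 0 ^ 2 / 2) * (deriv γ θ) 1 =
        - ∫ θ in Ioo 0 P, (α - β * (γ θ) 0) *
          ((n θ) 0 * (deriv γ θ) 1 - (n θ) 1 * (deriv γ θ) 0) := by
  have hX1 : ContMDiff (𝓡∂ 2) 𝓘(ℝ, E3) 1 X := h.c1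
  have hc := hγ.emb
  obtain ⟨q, hq⟩ := exists_BPt hb
  have hqc : Continuous q := hq.continuous hX1.continuous hc.smooth.continuous
  refine ⟨fun θ => N (q θ), h.continuous_normal.comp hqc, fun θ => h.unit _, ?_⟩
  intro α β
  have hst := hq.stokes h hc (h.Afun_continuous α β)
    (fun i x hx hx0 => h.Afun_hasFDerivAt α β hx hx0)
    (fun i x hx hx0 => h.closed α β hx hx0 b0 b1)
  have hder : ∀ θ, deriv (fun t => emb (γ t)) θ = emb (deriv γ θ) := fun θ =>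
    (hasDerivAt_emb (hγ.smooth.differentiable (by norm_num) θ).hasDerivAt).deriv
  have hint : ∀ θ, inner ℝ (Afun α β H (X (q θ)) (N (q θ))) (deriv (fun t => emb (γ t)) θ) =
      (α - β * (γ θ) 0) * ((N (q θ)) 0 * (deriv γ θ) 1 - (N (q θ)) 1 * (deriv γ θ) 0) +
      2 * H * ((α * (γ θ) 0 - β * (γ θ) 0 ^ 2 / 2) * (deriv γ θ) 1) := by
    intro θ
    rw [hder, hq.eq, inner3]
    simp [Afun, emb]
    ring
  simp only [hint] at hst
  have hγc : ∀ k : Fin 2, Continuous (fun t => (γ t) k) := fun k =>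
    (EuclideanSpace.proj k : E2 →L[ℝ] ℝ).continuous.comp hγ.smooth.continuous
  have hdc : ∀ k : Fin 2, Continuous (fun t => (deriv γ t) k) := fun k =>
    (EuclideanSpace.proj k : E2 →L[ℝ] ℝ).continuous.comp (hγ.smooth.continuous_deriv (by norm_num))
  have hnc : ∀ k : Fin 3, Continuous (fun t => (N (q t)) k) := fun k =>
    (EuclideanSpace.proj k : E3 →L[ℝ] ℝ).continuous.comp (h.continuous_normal.comp hqc)
  rw [integral_add, integral_const_mul] at hst
  · linarith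
  · have : Continuous (fun θ => (α - β * (γ θ) 0) *
        ((N (q θ)) 0 * (deriv γ θ) 1 - (N (q θ)) 1 * (deriv γ θ) 0)) :=
      (continuous_const.sub (continuous_const.mul (hγc 0))).mul
        (((hnc 0).mul (hdc 1)).sub ((hnc 1).mul (hdc 0)))
    exact (this.integrableOn_Icc (a := 0) (b := P)).mono_set Ioo_subset_Icc_self
  · have : Continuous (fun θ => 2 * H * ((α * (γ θ) 0 - β * (γ θ) 0 ^ 2 / 2) * (deriv γ θ) 1)) :=
      continuous_const.mul (((continuous_const.mul (hγc 0)).sub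
        ((continuous_const.mul ((hγc 0).pow 2)).div_const 2)).mul (hdc 1))
    exact (this.integrableOn_Icc (a := 0) (b := P)).mono_set Ioo_subset_Icc_self

/-- The basic inequality. -/
theorem flux_inequality {γ : ℝ → E2} {P : ℝ} (hγ : SCurve γ P) (h : IsCMC (𝓡∂ 2) H X N)
    (hb : BijOn X ((𝓡∂ 2).boundary M) (range fun t => emb (γ t))) (α β : ℝ) :
    2 * |H| * |∫ θ in Ioo 0 P, (α * (γ θ) 0 - β * (γ θ) 0 ^ 2 / 2) * (deriv γ θ) 1| ≤
      ∫ θ in Ioo 0 P, |α - β * (γ θ) 0| * ‖deriv γ θ‖ := by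
  obtain ⟨n, hnc, hn1, hn⟩ := flux_identity hγ h hb
  have h1 := hn α β
  have h2 : 2 * |H| * |∫ θ in Ioo 0 P, (α * (γ θ) 0 - β * (γ θ) 0 ^ 2 / 2) * (deriv γ θ) 1| =
      |∫ θ in Ioo 0 P, (α - β * (γ θ) 0) *
          ((n θ) 0 * (deriv γ θ) 1 - (n θ) 1 * (deriv γ θ) 0)| := by
    rw [← abs_neg (∫ θ in Ioo 0 P, (α - β * (γ θ) 0) *
          ((n θ) 0 * (deriv γ θ) 1 - (n θ) 1 * (deriv γ θ) 0)), ← h1, abs_mul, abs_mul]
    norm_num
  rw [h2]
  have hγc : ∀ k : Fin 2, Continuous (fun t => (γ t) k) := fun k =>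
    (EuclideanSpace.proj k : E2 →L[ℝ] ℝ).continuous.comp hγ.smooth.continuous
  have hd : Continuous (deriv γ) := hγ.smooth.continuous_deriv (by norm_num)
  have hcont : Continuous (fun θ => |α - β * (γ θ) 0| * ‖deriv γ θ‖) :=
    (continuous_const.sub (continuous_const.mul (hγc 0))).abs.mul hd.norm
  rw [← Real.norm_eq_abs]
  apply norm_integral_le_of_norm_le
    ((hcont.integrableOn_Icc (a := 0) (b := P)).mono_set Ioo_subset_Icc_self)
  filter_upwards with θ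
  rw [Real.norm_eq_abs, abs_mul]
  apply mul_le_mul_of_nonneg_left _ (abs_nonneg _)
  apply abs_le_of_sq_le_sq _ (norm_nonneg _)
  have hn2 : (n θ) 0 ^ 2 + (n θ) 1 ^ 2 + (n θ) 2 ^ 2 = 1 := by
    have := EuclideanSpace.norm_sq_eq (n θ)
    rw [hn1, Fin.sum_univ_three] at this
    simp only [Real.norm_eq_abs, sq_abs] at this
    linarith
  have hd2 : ‖deriv γ θ‖ ^ 2 = (deriv γ θ) 0 ^ 2 + (deriv γ θ) 1 ^ 2 := by
    rw [EuclideanSpace.norm_sq_eq, Fin.sum_univ_two]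
    simp only [Real.norm_eq_abs, sq_abs]
  rw [hd2]
  have h3 : (n θ) 0 ^ 2 + (n θ) 1 ^ 2 ≤ 1 := by nlinarith [sq_nonneg ((n θ) 2)]
  nlinarith [sq_nonneg ((n θ) 0 * (deriv γ θ) 0 + (n θ) 1 * (deriv γ θ) 1),
    mul_le_mul_of_nonneg_right h3 (add_nonneg (sq_nonneg ((deriv γ θ) 0)) (sq_nonneg ((deriv γ θ) 1)))]

end H71CMC
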