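import Mathlib
import Pool.Agent.H71.CMC.Flux

open MeasureTheory Set Filter Topology
open scoped Manifold ContDiff Real

namespace H71CMC.Ex

open Real

/-- support function -/
noncomputable def h (θ : ℝ) : ℝ := 1 + cos (2 * θ) / 10 + cos (3 * θ) / 40
/-- its derivative -/
noncomputable def h' (θ : ℝ) : ℝ := - sin (2 * θ) / 5 - 3 * sin (3 * θ) / 40
/-- radius of curvature `h + h''` -/
noncomputable def rad (θ : ℝ) : ℝ := 1 - 3 * cos (2 * θ) / 10 - cos (3 * θ) / 5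
/-- the curve -/
noncomputable def gam (θ : ℝ) : E2 := !₂[h θ * cos θ - h' θ * sin θ, h θ * sin θ + h' θ * cos θ]

lemma hasDerivAt_h (θ : ℝ) : HasDerivAt h (h' θ) θ := by
  have h1 : HasDerivAt (fun θ : ℝ => cos (2 * θ)) (- sin (2 * θ) * 2) θ := by
    simpa using ((hasDerivAt_id θ).const_mul 2).cos
  have h2 : HasDerivAt (fun θ : ℝ => cos (3 * θ)) (- sin (3 * θ) * 3) θ := by
    simpa using ((hasDerivAt_id θ).const_mul 3).cos
  have h3 := ((h1.div_const 10).const_add 1).add (h2.div_const 40)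
  refine h3.congr_deriv ?_
  unfold h'; ring

lemma hasDerivAt_h' (θ : ℝ) : HasDerivAt h' (rad θ - h θ) θ := by
  have h1 : HasDerivAt (fun θ : ℝ => sin (2 * θ)) (cos (2 * θ) * 2) θ := by
    simpa using ((hasDerivAt_id θ).const_mul 2).sin
  have h2 : HasDerivAt (fun θ : ℝ => sin (3 * θ)) (cos (3 * θ) * 3) θ := by
    simpa using ((hasDerivAt_id θ).const_mul 3).sin
  have h3 := (h1.neg.div_const 5).sub ((h2.const_mul 3).div_const 40)
  refine h3.congr_deriv ?_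
  unfold rad h; ring

lemma hasDerivAt_gam (θ : ℝ) : HasDerivAt gam (!₂[-(rad θ * sin θ), rad θ * cos θ]) θ := by
  have h0 : HasDerivAt (fun θ => h θ * cos θ - h' θ * sin θ) (-(rad θ * sin θ)) θ := by
    refine (((hasDerivAt_h θ).mul (hasDerivAt_cos θ)).sub
      ((hasDerivAt_h' θ).mul (hasDerivAt_sin θ))).congr_deriv ?_
    ring
  have h1 : HasDerivAt (fun θ => h θ * sin θ + h' θ * cos θ) (rad θ * cos θ) θ := by
    refine (((hasDerivAt_h θ).mul (hasDerivAt_sin θ)).add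
      ((hasDerivAt_h' θ).mul (hasDerivAt_cos θ))).congr_deriv ?_
    ring
  have h2 : gam = fun θ => (h θ * cos θ - h' θ * sin θ) • b0 + (h θ * sin θ + h' θ * cos θ) • b1 := by
    ext1 θ; ext k; fin_cases k <;> simp [gam]
  rw [h2]
  refine ((h0.smul_const b0).add (h1.smul_const b1)).congr_deriv ?_
  ext k; fin_cases k <;> simp

lemma contDiff_gam : ContDiff ℝ ω gam := by
  rw [contDiff_euclidean]
  have hc : ContDiff ℝ ω h := by unfold h; fun_prop
  have hc' : ContDiff ℝ ω h' := by unfold h'; fun_prop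
  intro k
  fin_cases k <;> simp [gam] <;> fun_prop

lemma rad_pos (θ : ℝ) : 0 < rad θ := by
  unfold rad
  have h1 := cos_le_one (2 * θ)
  have h2 := cos_le_one (3 * θ)
  linarith

lemma h_pos (θ : ℝ) : 0 < h θ := by
  unfold h
  have h1 := neg_one_le_cos (2 * θ)
  have h2 := neg_one_le_cos (3 * θ)
  linarith

lemma h_le (θ : ℝ) : h θ ≤ 2 := by
  unfold h
  have h1 := cos_le_one (2 * θ)
  have h2 := cos_le_one (3 * θ)
  linarith

/-- value of the support functional in the direction `θ` at a point -/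
noncomputable def sup (x : E2) (θ : ℝ) : ℝ := x 0 * cos θ + x 1 * sin θ

lemma sup_gam (θ₀ θ : ℝ) : sup (gam θ₀) θ = h θ₀ * cos (θ - θ₀) + h' θ₀ * sin (θ - θ₀) := by
  simp only [sup, gam, cos_sub, sin_sub]
  simp
  ring

lemma sup_gam_self (θ : ℝ) : sup (gam θ) θ = h θ := by
  rw [sup_gam]; simp

lemma support_ineq (θ₀ θ : ℝ) : (1 / 10) * (1 - cos (θ - θ₀)) ≤ h θ - sup (gam θ₀) θ := by
  rw [sup_gam]
  set δ := θ - θ₀ with hδ
  have hθ : θ = θ₀ + δ := by rw [hδ]; ring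
  set C := cos δ with hC
  set S := sin δ with hS
  have hCS : S ^ 2 = 1 - C ^ 2 := by rw [hC, hS, sin_sq]
  have e2 : cos (2 * θ) = cos (2 * θ₀) * (2 * C ^ 2 - 1) - sin (2 * θ₀) * (2 * S * C) := by
    rw [hθ, mul_add, cos_add, cos_two_mul δ, sin_two_mul δ]
  have e3 : cos (3 * θ) = cos (3 * θ₀) * (4 * C ^ 3 - 3 * C) - sin (3 * θ₀) * (3 * S - 4 * S ^ 3) := by
    rw [hθ, mul_add, cos_add, cos_three_mul δ, sin_three_mul δ]
  have hS3 : S ^ 3 = S * (1 - C ^ 2) := by rw [← hCS]; ring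
  set A2 := cos (2 * θ₀) with hA2
  set B2 := sin (2 * θ₀) with hB2
  set A3 := cos (3 * θ₀) with hA3
  set B3 := sin (3 * θ₀) with hB3
  have key : h θ - (h θ₀ * C + h' θ₀ * S) = (1 - C) *
      (1 - A2 * (2 * C + 1) / 10 + B2 * (2 * S) / 10 - A3 * (4 * C * (1 + C)) / 40 +
        B3 * (4 * S * (1 + C)) / 40) := by
    unfold h h'
    rw [e2, e3, ← hA2, ← hB2, ← hA3, ← hB3, hS3]
    ring
  rw [key]
  have bC1 : -1 ≤ C := neg_one_le_cos δ
  have bC2 : C ≤ 1 := cos_le_one δ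
  have bS1 : -1 ≤ S := neg_one_le_sin δ
  have bS2 : S ≤ 1 := sin_le_one δ
  have aA2 : |A2| ≤ 1 := abs_cos_le_one _
  have aB2 : |B2| ≤ 1 := abs_sin_le_one _
  have aA3 : |A3| ≤ 1 := abs_cos_le_one _
  have aB3 : |B3| ≤ 1 := abs_sin_le_one _
  have t1 : |A2 * (2 * C + 1)| ≤ 3 := by
    rw [abs_mul]
    have : |2 * C + 1| ≤ 3 := abs_le.2 ⟨by linarith, by linarith⟩
    calc |A2| * |2 * C + 1| ≤ 1 * 3 := by gcongr
      _ = 3 := by norm_num
  have t2 : |B2 * (2 * S)| ≤ 2 := by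
    rw [abs_mul]
    have : |2 * S| ≤ 2 := abs_le.2 ⟨by linarith, by linarith⟩
    calc |B2| * |2 * S| ≤ 1 * 2 := by gcongr
      _ = 2 := by norm_num
  have t3 : |A3 * (4 * C * (1 + C))| ≤ 8 := by
    rw [abs_mul]
    have : |4 * C * (1 + C)| ≤ 8 := abs_le.2 ⟨by nlinarith, by nlinarith⟩
    calc |A3| * |4 * C * (1 + C)| ≤ 1 * 8 := by gcongr
      _ = 8 := by norm_num
  have t4 : |B3 * (4 * S * (1 + C))| ≤ 8 := by
    rw [abs_mul]
    have : |4 * S * (1 + C)| ≤ 8 := abs_le.2 ⟨by nlinarith, by nlinarith⟩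
    calc |B3| * |4 * S * (1 + C)| ≤ 1 * 8 := by gcongr
      _ = 8 := by norm_num
  have u1 := (abs_le.1 t1).2
  have u2 := (abs_le.1 t2).1
  have u3 := (abs_le.1 t3).2
  have u4 := (abs_le.1 t4).1
  have hbr : 1 / 10 ≤ 1 - A2 * (2 * C + 1) / 10 + B2 * (2 * S) / 10 - A3 * (4 * C * (1 + C)) / 40 +
        B3 * (4 * S * (1 + C)) / 40 := by linarith
  rw [mul_comm]
  exact mul_le_mul_of_nonneg_left hbr (by linarith)

lemma h_add (θ : ℝ) : h (θ + 2 * π) = h θ := by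
  unfold h
  rw [show 2 * (θ + 2 * π) = 2 * θ + (2 : ℕ) * (2 * π) by push_cast; ring,
    show 3 * (θ + 2 * π) = 3 * θ + (3 : ℕ) * (2 * π) by push_cast; ring,
    cos_add_nat_mul_two_pi, cos_add_nat_mul_two_pi]

lemma h'_add (θ : ℝ) : h' (θ + 2 * π) = h' θ := by
  unfold h'
  rw [show 2 * (θ + 2 * π) = 2 * θ + (2 : ℕ) * (2 * π) by push_cast; ring,
    show 3 * (θ + 2 * π) = 3 * θ + (3 : ℕ) * (2 * π) by push_cast; ring,
    sin_add_nat_mul_two_pi, sin_add_nat_mul_two_pi]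

lemma gam_add (θ : ℝ) : gam (θ + 2 * π) = gam θ := by
  unfold gam
  rw [h_add, h'_add, cos_add_two_pi, sin_add_two_pi]

lemma gam_inj (s t : ℝ) (hst : gam s = gam t) : ∃ n : ℤ, s = t + n * (2 * π) := by
  have h1 := support_ineq t s
  rw [← hst, sup_gam_self] at h1
  have h2 : cos (s - t) = 1 := le_antisymm (cos_le_one _) (by linarith)
  obtain ⟨n, hn⟩ := (Real.cos_eq_one_iff _).1 h2
  exact ⟨n, by linarith⟩

lemma deriv_gam (θ : ℝ) : deriv gam θ = !₂[-(rad θ * sin θ), rad θ * cos θ] :=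
  (hasDerivAt_gam θ).deriv

lemma norm_deriv_gam (θ : ℝ) : ‖deriv gam θ‖ = rad θ := by
  rw [deriv_gam, EuclideanSpace.norm_eq, Fin.sum_univ_two]
  simp only [Real.norm_eq_abs, sq_abs]
  change √((-(rad θ * sin θ)) ^ 2 + (rad θ * cos θ) ^ 2) = rad θ
  rw [neg_sq, show (rad θ * sin θ) ^ 2 + (rad θ * cos θ) ^ 2 = rad θ ^ 2 * (sin θ ^ 2 + cos θ ^ 2) by ring,
    sin_sq_add_cos_sq, mul_one, sqrt_sq (rad_pos θ).le]

lemma scurve_gam : SCurve gam (2 * π) where
  pos := by positivity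
  smooth := contDiff_gam.of_le (by norm_num)
  period := gam_add
  inj := gam_inj
  reg := fun t ht => by
    have := norm_deriv_gam t
    rw [ht, norm_zero] at this
    exact (rad_pos t).ne this

end H71CMC.Ex
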