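import Mathlib
import Pool.Agent.H71.CMC.Example

open MeasureTheory Set Filter Topology
open scoped Manifold ContDiff Real

namespace H71CMC.Ex

open Real

/-- the domain bounded by the curve -/
def Dom : Set E2 := {x | ∀ θ, sup x θ < h θ}

lemma sup_add_two_pi (x : E2) (θ : ℝ) : sup x (θ + 2 * π) = sup x θ := by
  simp [sup]

lemma continuous_h : Continuous h := continuous_iff_continuousAt.2 fun θ => (hasDerivAt_h θ).continuousAt

lemma continuous_sup (x : E2) : Continuous (sup x) := by unfold sup; fun_prop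

lemma sup_sub_le (x y : E2) (θ : ℝ) : sup y θ - sup x θ ≤ ‖y - x‖ := by
  have h1 : (sup y θ - sup x θ) ^ 2 ≤ ‖y - x‖ ^ 2 := by
    rw [EuclideanSpace.norm_sq_eq, Fin.sum_univ_two]
    simp only [Real.norm_eq_abs, sq_abs, PiLp.sub_apply, sup]
    have := sin_sq_add_cos_sq θ
    nlinarith [sq_nonneg ((y 0 - x 0) * sin θ - (y 1 - x 1) * cos θ)]
  exact (abs_le_of_sq_le_sq' h1 (norm_nonneg _)).2

lemma isOpen_Dom : IsOpen Dom := by
  rw [Metric.isOpen_iff]
  intro x hx
  have hcont : Continuous (fun θ => h θ - sup x θ) := continuous_h.sub (continuous_sup x)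
  obtain ⟨θ₁, hθ₁, hmin⟩ := (isCompact_Icc (a := (0 : ℝ)) (b := 2 * π)).exists_isMinOn
    ⟨0, by constructor <;> positivity⟩ hcont.continuousOn
  refine ⟨h θ₁ - sup x θ₁, by linarith [hx θ₁], ?_⟩
  intro y hy θ
  have hper : Function.Periodic (fun θ => h θ - sup x θ) (2 * π) := fun θ => by
    simp only [h_add, sup_add_two_pi]
  obtain ⟨θ₂, hθ₂, he⟩ := hper.exists_mem_Ico₀ (by positivity) θ
  have h1 : h θ₁ - sup x θ₁ ≤ h θ₂ - sup x θ₂ := hmin ⟨hθ₂.1, hθ₂.2.le⟩
  have h2 := sup_sub_le x y θ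
  rw [Metric.mem_ball, dist_eq_norm] at hy
  have he' : h θ - sup x θ = h θ₂ - sup x θ₂ := he
  linarith

lemma convex_Dom : Convex ℝ Dom := by
  intro x hx y hy a b ha hb hab θ
  have e : sup (a • x + b • y) θ = a * sup x θ + b * sup y θ := by
    simp [sup]; ring
  rw [e]
  have h1 := hx θ
  have h2 := hy θ
  have h3 : a * h θ + b * h θ = h θ := by rw [← add_mul, hab, one_mul]
  rcases eq_or_lt_of_le ha with h0 | h0
  · have : b = 1 := by linarith
    rw [← h0, this]; linarith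
  · linarith [mul_lt_mul_of_pos_left h1 h0, mul_le_mul_of_nonneg_left h2.le hb]

lemma zero_mem_Dom : (0 : E2) ∈ Dom := by
  intro θ
  have : sup 0 θ = 0 := by simp [sup]
  rw [this]; exact h_pos θ

lemma sup_smul (t : ℝ) (x : E2) (θ : ℝ) : sup (t • x) θ = t * sup x θ := by
  simp [sup]; ring

lemma sup_self_norm (x : E2) : ∃ θ, sup x θ = ‖x‖ := by
  have h1 : ∃ θ : ℝ, x 0 = ‖x‖ * cos θ ∧ x 1 = ‖x‖ * sin θ := by
    refine ⟨Complex.arg (⟨x 0, x 1⟩ : ℂ), ?_, ?_⟩
    · have := Complex.norm_mul_cos_arg (⟨x 0, x 1⟩ : ℂ)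
      have hn : ‖(⟨x 0, x 1⟩ : ℂ)‖ = ‖x‖ := by
        rw [EuclideanSpace.norm_eq, Fin.sum_univ_two, Complex.norm_eq_sqrt_sq_add_sq]
        simp
      rw [← hn, this]
    · have := Complex.norm_mul_sin_arg (⟨x 0, x 1⟩ : ℂ)
      have hn : ‖(⟨x 0, x 1⟩ : ℂ)‖ = ‖x‖ := by
        rw [EuclideanSpace.norm_eq, Fin.sum_univ_two, Complex.norm_eq_sqrt_sq_add_sq]
        simp
      rw [← hn, this]
  obtain ⟨θ, h0, h1⟩ := h1
  refine ⟨θ, ?_⟩
  unfold sup
  rw [h0, h1]
  have := sin_sq_add_cos_sq θ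
  linear_combination ‖x‖ * this

lemma Dom_norm_le {x : E2} (hx : x ∈ Dom) : ‖x‖ ≤ 2 := by
  obtain ⟨θ, hθ⟩ := sup_self_norm x
  rw [← hθ]
  exact (hx θ).le.trans (h_le θ)

lemma bounded_Dom : Bornology.IsBounded Dom := by
  rw [isBounded_iff_forall_norm_le]
  exact ⟨2, fun x hx => Dom_norm_le hx⟩

lemma closure_Dom_le {x : E2} (hx : x ∈ closure Dom) (θ : ℝ) : sup x θ ≤ h θ := by
  have hcl : IsClosed {x : E2 | sup x θ ≤ h θ} := by
    apply isClosed_le _ continuous_const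
    unfold sup
    fun_prop
  exact closure_minimal (fun y hy => (hy θ).le) hcl hx

lemma eq_gam_of_touch {x : E2} (hx : ∀ θ, sup x θ ≤ h θ) {θ₀ : ℝ} (h0 : sup x θ₀ = h θ₀) :
    x = gam θ₀ := by
  have hd : HasDerivAt (fun θ => h θ - sup x θ) (h' θ₀ - (-(x 0 * sin θ₀) + x 1 * cos θ₀)) θ₀ := by
    have h1 : HasDerivAt (sup x) (-(x 0 * sin θ₀) + x 1 * cos θ₀) θ₀ := by
      refine (((hasDerivAt_cos θ₀).const_mul (x 0)).add
        ((hasDerivAt_sin θ₀).const_mul (x 1))).congr_deriv ?_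
      ring
    exact (hasDerivAt_h θ₀).sub h1
  have hmin : IsLocalMin (fun θ => h θ - sup x θ) θ₀ := by
    apply Filter.Eventually.of_forall
    intro θ
    simp only [h0, sub_self]
    linarith [hx θ]
  have h1 := hmin.hasDerivAt_eq_zero hd
  unfold sup at h0
  have hcs := sin_sq_add_cos_sq θ₀
  ext k; fin_cases k
  · change x 0 = h θ₀ * cos θ₀ - h' θ₀ * sin θ₀
    linear_combination (-x 0) * hcs + cos θ₀ * h0 + sin θ₀ * h1
  · change x 1 = h θ₀ * sin θ₀ + h' θ₀ * cos θ₀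
    linear_combination (-x 1) * hcs + sin θ₀ * h0 - cos θ₀ * h1

lemma sup_gam_le (θ₀ θ : ℝ) : sup (gam θ₀) θ ≤ h θ := by
  have := support_ineq θ₀ θ
  have h2 := cos_le_one (θ - θ₀)
  linarith

lemma frontier_Dom : frontier Dom = range gam := by
  rw [frontier, isOpen_Dom.interior_eq]
  apply Subset.antisymm
  · rintro x ⟨h1, h2⟩
    have h3 : ∃ θ, h θ ≤ sup x θ := by
      by_contra hcon
      push Not at hcon
      exact h2 hcon
    obtain ⟨θ₀, h4⟩ := h3
    exact ⟨θ₀, (eq_gam_of_touch (closure_Dom_le h1) (le_antisymm (closure_Dom_le h1 θ₀) h4)).symm⟩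
  · rintro _ ⟨θ₀, rfl⟩
    refine ⟨?_, ?_⟩
    · have ht : Tendsto (fun n : ℕ => (1 - 1 / ((n : ℝ) + 1)) • gam θ₀) atTop (𝓝 (gam θ₀)) := by
        have h1 : Tendsto (fun n : ℕ => (1 - 1 / ((n : ℝ) + 1))) atTop (𝓝 (1 - 0)) :=
          tendsto_const_nhds.sub tendsto_one_div_add_atTop_nhds_zero_nat
        have h2 := h1.smul_const (gam θ₀)
        simpa using h2
      apply mem_closure_of_tendsto ht
      apply Filter.Eventually.of_forall
      intro n θ
      rw [sup_smul]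
      have h1 := sup_gam_le θ₀ θ
      have h2 := h_pos θ
      have h3 : 0 < 1 / ((n : ℝ) + 1) := by positivity
      have h4 : 1 / ((n : ℝ) + 1) ≤ 1 := by
        rw [div_le_one (by positivity)]
        linarith [(Nat.cast_nonneg n : (0 : ℝ) ≤ n)]
      nlinarith
    · intro hcon
      have := hcon θ₀
      rw [sup_gam_self] at this
      exact lt_irrefl _ this

/-- every point of the domain is `r γ(θ)` with `0 ≤ r < 1` -/
lemma exists_polar {x : E2} (hx : x ∈ Dom) :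
    ∃ r ∈ Ico (0 : ℝ) 1, ∃ θ ∈ Ico (0 : ℝ) (2 * π), x = r • gam θ := by
  by_cases hx0 : x = 0
  · refine ⟨0, ⟨le_rfl, zero_lt_one⟩, 0, ⟨le_rfl, by positivity⟩, ?_⟩
    rw [hx0, zero_smul]
  · have hn : 0 < ‖x‖ := norm_pos_iff.2 hx0
    set y := (3 / ‖x‖) • x with hy
    have hyD : y ∉ Dom := by
      intro h1
      have := Dom_norm_le h1
      rw [hy, norm_smul, Real.norm_eq_abs, abs_of_pos (by positivity), div_mul_cancel₀ _ hn.ne'] at this
      linarith
    have hpre : IsPreconnected (segment ℝ x y) := (convex_segment x y).isPreconnected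
    have hfr : ∃ z ∈ segment ℝ x y, z ∈ frontier Dom := by
      by_contra hcon
      push Not at hcon
      have h1 := hpre Dom (closure Dom)ᶜ isOpen_Dom isClosed_closure.isOpen_compl (fun z hz => by
        by_cases hzD : z ∈ Dom
        · exact Or.inl hzD
        · right
          intro hzc
          apply hcon z hz
          rw [frontier, isOpen_Dom.interior_eq]
          exact ⟨hzc, hzD⟩) ⟨x, left_mem_segment ℝ x y, hx⟩
          ⟨y, right_mem_segment ℝ x y, fun hyc => hcon y (right_mem_segment ℝ x y) (by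
            rw [frontier, isOpen_Dom.interior_eq]
            exact ⟨hyc, hyD⟩)⟩
      obtain ⟨z, -, hz1, hz2⟩ := h1
      exact hz2 (subset_closure hz1)
    obtain ⟨z, hz, hzf⟩ := hfr
    have hzD : z ∉ Dom := by
      rw [frontier, isOpen_Dom.interior_eq] at hzf
      exact hzf.2
    rw [frontier_Dom] at hzf
    obtain ⟨θ, hθ⟩ := hzf
    obtain ⟨a, b, ha, hb, hab, hz⟩ := hz
    have hz2 : z = (a + b * (3 / ‖x‖)) • x := by
      rw [← hz, hy, smul_smul, add_smul]
    set t := a + b * (3 / ‖x‖) with ht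
    have hnx := Dom_norm_le hx
    have h3 : 3 / 2 ≤ 3 / ‖x‖ := by gcongr
    have ht1 : 1 ≤ t := by
      rw [ht]; nlinarith
    have ht2 : t ≠ 1 := by
      intro h1
      rw [h1, one_smul] at hz2
      exact hzD (hz2 ▸ hx)
    have ht3 : 1 < t := lt_of_le_of_ne ht1 (Ne.symm ht2)
    obtain ⟨θ', hθ', he⟩ := (show Function.Periodic gam (2 * π) from gam_add).exists_mem_Ico₀
      (by positivity) θ
    refine ⟨t⁻¹, ⟨by positivity, inv_lt_one_of_one_lt₀ ht3⟩, θ', hθ', ?_⟩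
    rw [← he, hθ, hz2, smul_smul, inv_mul_cancel₀ (by positivity), one_smul]

end H71CMC.Ex
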