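import Mathlib
import Pool.Agent.H71.CMC.Domain

open MeasureTheory Set Filter Topology
open scoped Manifold ContDiff Real

namespace H71CMC.Ex

open Real

/-- moments of the cosine -/
noncomputable def mo (n : ℕ) : ℝ := ∫ x in (0 : ℝ)..(2 * π), cos x ^ n

lemma mo_zero : mo 0 = 2 * π := by simp [mo]

lemma mo_one : mo 1 = 0 := by simp [mo]

lemma mo_succ (n : ℕ) : mo (n + 2) = (n + 1) / (n + 2) * mo n := by
  unfold mo
  rw [integral_cos_pow]
  simp

lemma mo_2 : mo 2 = π := by rw [mo_succ, mo_zero]; push_cast; ring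
lemma mo_3 : mo 3 = 0 := by rw [mo_succ, mo_one]; ring
lemma mo_4 : mo 4 = 3 / 4 * π := by rw [mo_succ, mo_2]; push_cast; ring
lemma mo_5 : mo 5 = 0 := by rw [mo_succ, mo_3]; ring
lemma mo_6 : mo 6 = 5 / 8 * π := by rw [mo_succ, mo_4]; push_cast; ring
lemma mo_7 : mo 7 = 0 := by rw [mo_succ, mo_5]; ring
lemma mo_8 : mo 8 = 35 / 64 * π := by rw [mo_succ, mo_6]; push_cast; ring
lemma mo_9 : mo 9 = 0 := by rw [mo_succ, mo_7]; ring
lemma mo_10 : mo 10 = 63 / 128 * π := by rw [mo_succ, mo_8]; push_cast; ring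
lemma mo_11 : mo 11 = 0 := by rw [mo_succ, mo_9]; ring
lemma mo_12 : mo 12 = 231 / 512 * π := by rw [mo_succ, mo_10]; push_cast; ring

lemma poly_int (w : ℕ → ℝ) (n : ℕ) :
    ∫ θ in Ioo 0 (2 * π), ∑ k ∈ Finset.range n, w k * cos θ ^ k =
      ∑ k ∈ Finset.range n, w k * mo k := by
  rw [← integral_Ioc_eq_integral_Ioo, ← intervalIntegral.integral_of_le (by positivity),
    intervalIntegral.integral_finsetSum]
  · simp only [intervalIntegral.integral_const_mul, mo]
  · intro k _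
    exact (Continuous.intervalIntegrable (by fun_prop) _ _)

/-- coefficient list -/
lemma int_of_coeffs {f : ℝ → ℝ} (w : ℕ → ℝ) (hw : ∀ θ, f θ = ∑ k ∈ Finset.range 13, w k * cos θ ^ k) :
    ∫ θ in Ioo 0 (2 * π), f θ = 2 * π * w 0 + π * w 2 + 3 / 4 * π * w 4 + 5 / 8 * π * w 6 +
      35 / 64 * π * w 8 + 63 / 128 * π * w 10 + 231 / 512 * π * w 12 := by
  simp only [hw]
  rw [poly_int]
  simp only [Finset.sum_range_succ, Finset.sum_range_zero, mo_zero, mo_one, mo_2, mo_3, mo_4,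
    mo_5, mo_6, mo_7, mo_8, mo_9, mo_10, mo_11, mo_12]
  ring

lemma gam_zero (θ : ℝ) : (gam θ) 0 =
    -3/40 + 13/10 * cos θ + 3/10 * cos θ ^ 2 - 1/5 * cos θ ^ 3 - 1/5 * cos θ ^ 4 := by
  change h θ * cos θ - h' θ * sin θ = _
  unfold h h'
  rw [cos_two_mul, cos_three_mul, sin_two_mul, sin_three_mul]
  have hs := sin_sq θ
  have hs4 : sin θ ^ 4 = (1 - cos θ ^ 2) ^ 2 := by rw [← hs]; ring
  linear_combination (2 / 5 * cos θ + 9 / 40) * hs - 3 / 10 * hs4

lemma rad_eq (θ : ℝ) : rad θ = 13/10 + 3/5 * cos θ - 3/5 * cos θ ^ 2 - 4/5 * cos θ ^ 3 := by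
  unfold rad
  rw [cos_two_mul, cos_three_mul]
  ring

lemma h_eq (θ : ℝ) : h θ = 9/10 - 3/40 * cos θ + 1/5 * cos θ ^ 2 + 1/10 * cos θ ^ 3 := by
  unfold h
  rw [cos_two_mul, cos_three_mul]
  ring

lemma int_rad : ∫ θ in Ioo 0 (2 * π), rad θ = 2 * π := by
  rw [int_of_coeffs (fun k => if k = 0 then 13/10 else if k = 1 then 3/5 else if k = 2 then -3/5
    else if k = 3 then -4/5 else 0)]
  · norm_num; ring
  · intro θ
    rw [rad_eq]
    simp [Finset.sum_range_succ]
    ring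

lemma int_hrad : ∫ θ in Ioo 0 (2 * π), h θ * rad θ = 393 / 200 * π := by
  rw [int_of_coeffs (fun k => if k = 0 then 117/100 else if k = 1 then 177/400
    else if k = 2 then -13/40 else if k = 3 then -17/40 else if k = 4 then 0
    else if k = 5 then -11/50 else if k = 6 then -2/25 else 0)]
  · norm_num; ring
  · intro θ
    rw [rad_eq, h_eq]
    simp [Finset.sum_range_succ]
    ring

lemma int_lrad : ∫ θ in Ioo 0 (2 * π), (1 - 1 / 2 * (gam θ) 0) * rad θ = 801 / 400 * π := by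
  rw [int_of_coeffs (fun k => if k = 0 then 1079/800 else if k = 1 then -89/400
    else if k = 2 then -483/400 else if k = 3 then -2/5 else if k = 4 then 4/5
    else if k = 5 then 3/25 else if k = 6 then -7/50 else if k = 7 then -2/25 else 0)]
  · norm_num; ring
  · intro θ
    rw [rad_eq, gam_zero]
    simp [Finset.sum_range_succ]
    ring

lemma int_G : ∫ θ in Ioo 0 (2 * π),
    (1 * (gam θ) 0 - 1 / 2 * (gam θ) 0 ^ 2 / 2) * (deriv gam θ) 1 = 31529 / 32000 * π := by
  rw [int_of_coeffs (fun k => if k = 0 then 0 else if k = 1 then -6357/64000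
    else if k = 2 then 54641/32000 else if k = 3 then 4547/6400 else if k = 4 then -2141/1600
    else if k = 5 then -1107/800 else if k = 6 then 957/2000 else if k = 7 then 63/125
    else if k = 8 then -3/100 else if k = 9 then -33/200 else if k = 10 then -1/100
    else if k = 11 then 11/500 else 1/125)]
  · norm_num; ring
  · intro θ
    have : (deriv gam θ) 1 = rad θ * cos θ := by rw [deriv_gam]; simp
    rw [this, rad_eq, gam_zero]
    simp [Finset.sum_range_succ]
    ring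

/-- length -/
lemma length_gam : ∫ θ in Ioo 0 (2 * π), ‖deriv gam θ‖ = 2 * π := by
  simp only [norm_deriv_gam]
  exact int_rad

lemma gam_zero_le (θ : ℝ) : (gam θ) 0 ≤ 2 := by
  have h1 := sup_gam_le θ 0
  have h2 : sup (gam θ) 0 = (gam θ) 0 := by simp [sup]
  rw [h2] at h1
  exact h1.trans (h_le 0)

lemma int_abs : ∫ θ in Ioo 0 (2 * π), |1 - 1 / 2 * (gam θ) 0| * ‖deriv gam θ‖ = 801 / 400 * π := by
  rw [← int_lrad]
  congr 1
  ext θ
  rw [norm_deriv_gam, abs_of_nonneg (by linarith [gam_zero_le θ])]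

end H71CMC.Ex
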