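import Mathlib
import Pool.Agent.H71.CMC.Moments

open MeasureTheory Set Filter Topology
open scoped Manifold ContDiff Real

namespace H71CMC.Ex

open Real

/-- polar-type parametrization -/
noncomputable def Phi (z : E2) : E2 := z 0 • gam (z 1)

noncomputable def Phi' (z : E2) : E2 →L[ℝ] E2 :=
  z 0 • ((ContinuousLinearMap.toSpanSingleton ℝ (deriv gam (z 1))).comp
    (EuclideanSpace.proj 1 : E2 →L[ℝ] ℝ)) +
  (EuclideanSpace.proj 0 : E2 →L[ℝ] ℝ).smulRight (gam (z 1))

lemma hasFDerivAt_Phi (z : E2) : HasFDerivAt Phi (Phi' z) z := by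
  have h0 : HasFDerivAt (fun z : E2 => z 0) (EuclideanSpace.proj 0 : E2 →L[ℝ] ℝ) z :=
    (EuclideanSpace.proj 0 : E2 →L[ℝ] ℝ).hasFDerivAt
  have h1 : HasFDerivAt (fun z : E2 => z 1) (EuclideanSpace.proj 1 : E2 →L[ℝ] ℝ) z :=
    (EuclideanSpace.proj 1 : E2 →L[ℝ] ℝ).hasFDerivAt
  have h2 : HasFDerivAt (fun z : E2 => gam (z 1))
      ((ContinuousLinearMap.toSpanSingleton ℝ (deriv gam (z 1))).comp
        (EuclideanSpace.proj 1 : E2 →L[ℝ] ℝ)) z := by
    have h3 : HasFDerivAt gam (ContinuousLinearMap.toSpanSingleton ℝ (deriv gam (z 1))) (z 1) := by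
      have := (hasDerivAt_gam (z 1)).differentiableAt.hasDerivAt
      exact this.hasFDerivAt
    exact h3.comp z h1
  exact h0.smul h2

lemma Phi'_det (z : E2) : (Phi' z).det = z 0 * (h (z 1) * rad (z 1)) := by
  rw [det_formula]
  simp only [Phi', deriv_gam]
  simp [gam]
  have := sin_sq_add_cos_sq (z 1)
  linear_combination (z 0 * h (z 1) * rad (z 1)) * this

/-- parameter set -/
def Par : Set E2 := {z | z 0 ∈ Ico (0 : ℝ) 1 ∧ z 1 ∈ Ico (0 : ℝ) (2 * π)}

lemma Par_eq : Par = prodEquiv ⁻¹' (Ico (0 : ℝ) 1 ×ˢ Ico (0 : ℝ) (2 * π)) := rfl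

lemma measurableSet_Par : MeasurableSet Par := by
  rw [Par_eq]
  exact prodEquiv.continuous.measurable (measurableSet_Ico.prod measurableSet_Ico)

lemma Dom_subset : Dom ⊆ Phi '' Par := by
  intro x hx
  obtain ⟨r, hr, θ, hθ, rfl⟩ := exists_polar hx
  exact ⟨pt r θ, ⟨by simpa using hr, by simpa using hθ⟩, by simp [Phi]⟩

lemma continuous_rad : Continuous rad := by unfold rad; fun_prop

lemma int_par : ∫ z in Par, z 0 * (h (z 1) * rad (z 1)) = 393 / 400 * π := by
  have hemb : MeasurableEmbedding prodEquiv := prodEquiv.toHomeomorph.measurableEmbedding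
  rw [Par_eq]
  have h1 := prodEquiv_mp.setIntegral_preimage_emb hemb
    (fun z : ℝ × ℝ => z.1 * (h z.2 * rad z.2)) (Ico (0 : ℝ) 1 ×ˢ Ico (0 : ℝ) (2 * π))
  have h2 : ∫ z in prodEquiv ⁻¹' (Ico (0 : ℝ) 1 ×ˢ Ico (0 : ℝ) (2 * π)), z 0 * (h (z 1) * rad (z 1)) =
      ∫ z in Ico (0 : ℝ) 1 ×ˢ Ico (0 : ℝ) (2 * π), z.1 * (h z.2 * rad z.2) := h1
  rw [h2, Measure.volume_eq_prod, setIntegral_prod_mul (fun r : ℝ => r) (fun θ => h θ * rad θ),
    integral_Ico_eq_integral_Ioo (x := 0) (y := 2 * π), int_hrad, integral_Ico_eq_integral_Ioo,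
    ← integral_Ioc_eq_integral_Ioo, ← intervalIntegral.integral_of_le zero_le_one]
  simp
  ring

lemma area_le : (volume Dom).toReal ≤ 393 / 400 * π := by
  have h1 : volume Dom ≤ ∫⁻ z in Par, ENNReal.ofReal |(Phi' z).det| :=
    (measure_mono Dom_subset).trans (addHaar_image_le_lintegral_abs_det_fderiv volume
      measurableSet_Par fun z _ => (hasFDerivAt_Phi z).hasFDerivWithinAt)
  have hnn : ∀ z ∈ Par, 0 ≤ z 0 * (h (z 1) * rad (z 1)) := fun z hz =>
    mul_nonneg hz.1.1 (mul_nonneg (h_pos _).le (rad_pos _).le)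
  have h2 : ∫⁻ z in Par, ENNReal.ofReal |(Phi' z).det| =
      ∫⁻ z in Par, ENNReal.ofReal (z 0 * (h (z 1) * rad (z 1))) := by
    apply setLIntegral_congr_fun measurableSet_Par
    intro z hz
    simp only []
    rw [Phi'_det, abs_of_nonneg (hnn z hz)]
  have hint : IntegrableOn (fun z : E2 => z 0 * (h (z 1) * rad (z 1))) Par := by
    have hcont : Continuous (fun z : E2 => z 0 * (h (z 1) * rad (z 1))) := by
      have := continuous_h
      have := continuous_rad
      fun_prop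
    have hK : IsCompact (prodEquiv ⁻¹' (Icc (0 : ℝ) 1 ×ˢ Icc (0 : ℝ) (2 * π))) :=
      prodEquiv.toHomeomorph.isCompact_preimage.2 (isCompact_Icc.prod isCompact_Icc)
    apply (hcont.continuousOn.integrableOn_compact hK).mono_set
    intro z hz
    exact ⟨⟨hz.1.1, hz.1.2.le⟩, ⟨hz.2.1, hz.2.2.le⟩⟩
  have h3 : ∫⁻ z in Par, ENNReal.ofReal (z 0 * (h (z 1) * rad (z 1))) =
      ENNReal.ofReal (393 / 400 * π) := by
    rw [← int_par, ofReal_integral_eq_lintegral_ofReal hint]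
    filter_upwards [ae_restrict_mem measurableSet_Par] with z hz
    exact hnn z hz
  rw [h2, h3] at h1
  exact ENNReal.toReal_le_of_le_ofReal (by positivity) h1

lemma area_pos : 0 < (volume Dom).toReal := by
  apply ENNReal.toReal_pos
  · exact (isOpen_Dom.measure_pos volume ⟨0, zero_mem_Dom⟩).ne'
  · exact bounded_Dom.measure_lt_top.ne

end H71CMC.Ex
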