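import Mathlib
import Pool.Agent.H71.CMC.Area

open MeasureTheory Set Filter Topology
open scoped Manifold ContDiff Real

namespace H71CMC

/-- For every regular `C¹` simple closed planar curve `γ` and every compact orientable immersed
surface of constant mean curvature `H` bounded by it the first moment flux inequality holds. -/
theorem HSurfaceExists.flux {H P : ℝ} {γ : ℝ → E2} (hγ : SCurve γ P)
    (h : HSurfaceExists H (emb '' range γ)) (α β : ℝ) :
    2 * |H| * |∫ θ in Ioo 0 P, (α * (γ θ) 0 - β * (γ θ) 0 ^ 2 / 2) * (deriv γ θ) 1| ≤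
      ∫ θ in Ioo 0 P, |α - β * (γ θ) 0| * ‖deriv γ θ‖ := by
  obtain ⟨M, i1, i2, i3, i4, i5, X, N, hXN, hb⟩ := h
  refine flux_inequality hγ hXN ?_ α β
  rwa [← range_comp] at hb

open Ex in
theorem main : ∃ (γ : ℝ → EuclideanSpace ℝ (Fin 2)) (P : ℝ) (D : Set (EuclideanSpace ℝ (Fin 2)))
    (H₀ : ℝ), IsAnalyticSimpleClosedCurve γ P ∧ IsOpen D ∧ Convex ℝ D ∧ D.Nonempty ∧
      Bornology.IsBounded D ∧ frontier D = range γ ∧ 0 < H₀ ∧
      H₀ < curveLength γ P / (2 * area D) ∧
      ∀ H : ℝ, H₀ < |H| → ¬ HSurfaceExists H (emb '' range γ) := by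
  refine ⟨gam, 2 * π, Dom, 32040 / 31529, ⟨by positivity, contDiff_gam, gam_add, gam_inj,
    scurve_gam.reg⟩, isOpen_Dom, convex_Dom, ⟨0, zero_mem_Dom⟩, bounded_Dom, frontier_Dom,
    by norm_num, ?_, ?_⟩
  · have hL : curveLength gam (2 * π) = 2 * π := by
      unfold curveLength
      rw [intervalIntegral.integral_of_le (by positivity), integral_Ioc_eq_integral_Ioo]
      exact length_gam
    change 32040 / 31529 < curveLength gam (2 * π) / (2 * (volume Dom).toReal)
    rw [hL, lt_div_iff₀ (by have := area_pos; linarith)]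
    have h1 := area_le
    have h2 := Real.pi_pos
    nlinarith
  · intro H hH hex
    have h1 := hex.flux scurve_gam 1 (1 / 2)
    rw [int_G, int_abs, abs_of_pos (show (0 : ℝ) < 31529 / 32000 * π by positivity)] at h1
    have h2 := Real.pi_pos
    have h3 : |H| ≤ 32040 / 31529 := by
      have h4 : (2 * |H| * (31529 / 32000)) * π ≤ (801 / 400) * π := by linarith
      have h5 := le_of_mul_le_mul_right h4 h2
      linarith
    linarith

end H71CMC
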